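import Pool.Agent.R602.CO.Top
import Pool.Agent.R602.PP.Defs

/-!
# Hewitt extensions in a transitive model of ZF: definitions
-/

set_option autoImplicit false

namespace Pool.Agent.R602.HE

open Pool.Agent.W868
open Pool.Agent.R602.CO (cut)
open Pool.Agent.R598.PM (IsTop FinIn)
open ZFSet (pair)

/-- The function `f` is a continuous real function on the topological space `(X, τ)`. Its values
are given by their Dedekind cuts. -/
def IsContReal (X τ f : ZFSet.{0}) : Prop :=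
  (∀ x ∈ X, ∃ y : ℝ, ∀ c, pair x c ∈ f ↔ c = cut y) ∧
  ∀ p : ℚ, ZFSet.sep (fun x => ∃ y : ℝ, pair x (cut y) ∈ f ∧ (p : ℝ) < y) X ∈ τ ∧
    ZFSet.sep (fun x => ∃ y : ℝ, pair x (cut y) ∈ f ∧ y < (p : ℝ)) X ∈ τ

/-- In the model `M`, the space `(X, τ)` is Tychonoff: its points are closed, and it is completely
regular. -/
def IsTychonoff (M : Set ZFSet.{0}) (X τ : ZFSet.{0}) : Prop :=
  IsTop M X τ ∧ (∀ x ∈ X, X \ {x} ∈ τ) ∧ ∀ F ∈ M, F ⊆ X → X \ F ∈ τ → ∀ x ∈ X, x ∉ F →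
    ∃ f ∈ M, IsContReal X τ f ∧ (∀ z ∈ X, ∃ y : ℝ, pair z (cut y) ∈ f ∧ 0 ≤ y ∧ y ≤ 1) ∧
      pair x (cut 0) ∈ f ∧ ∀ z ∈ F, pair z (cut 1) ∈ f

/-- In the model `M`, `F` is a finite set of pairs `(j, V)` with `j ∈ J` and `V` open in
`(E, σ)`; it gives a basic open subset of `E ^ J`. -/
def IsBox (M : Set ZFSet.{0}) (σ J F : ZFSet.{0}) : Prop :=
  F ∈ M ∧ FinIn M F ∧ ∀ p ∈ F, ∃ j ∈ J, ∃ V ∈ σ, p = pair j V

/-- The function `g` is in the basic open set given by `F`: `g j ∈ V` for all `(j, V)` in `F`. -/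
def InBox (F g : ZFSet.{0}) : Prop := ∀ j V, pair j V ∈ F → ∃ e ∈ V, pair j e ∈ g

/-- In the model `M`, the function `h` is a homeomorphism of the space `(X, τ)` onto the subspace
`C` of the power `E ^ J` of the space `(E, σ)`. -/
structure IsEmb (M : Set ZFSet.{0}) (E σ X τ J C h : ZFSet.{0}) : Prop where
  fn : ∀ g ∈ C, ZFSet.IsFunc J E g
  bij : IsBij X C h
  top : ∀ U ∈ M, U ⊆ X → (U ∈ τ ↔ ∀ x ∈ U, ∀ g, pair x g ∈ h →
    ∃ F, IsBox M σ J F ∧ InBox F g ∧ ∀ y ∈ X, ∀ g', pair y g' ∈ h → InBox F g' → y ∈ U)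

/-- In the model `M`, the set `C` is closed in the power `E ^ J` of the space `(E, σ)`. -/
def IsClosedPow (M : Set ZFSet.{0}) (E σ J C : ZFSet.{0}) : Prop :=
  ∀ g ∈ M, ZFSet.IsFunc J E g → (∀ F, IsBox M σ J F → InBox F g → ∃ g' ∈ C, InBox F g') → g ∈ C

/-- In the model `M`, the space `(X, τ)` is `E`-completely regular. -/
def ECompletelyRegular (M : Set ZFSet.{0}) (E σ X τ : ZFSet.{0}) : Prop :=
  ∃ J ∈ M, J ≠ ∅ ∧ ∃ C ∈ M, ∃ h ∈ M, IsEmb M E σ X τ J C h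

/-- In the model `M`, the space `(X, τ)` is `E`-compact. -/
def ECompact (M : Set ZFSet.{0}) (E σ X τ : ZFSet.{0}) : Prop :=
  ∃ J ∈ M, J ≠ ∅ ∧ ∃ C ∈ M, ∃ h ∈ M, IsEmb M E σ X τ J C h ∧ IsClosedPow M E σ J C

/-- The function `f` is a continuous map from the space `(X, τ)` to the space `(E, σ)`. -/
def IsContMap (X τ E σ f : ZFSet.{0}) : Prop :=
  ZFSet.IsFunc X E f ∧ ∀ V ∈ σ, ZFSet.sep (fun x => ∃ e ∈ V, pair x e ∈ f) X ∈ τ

/-- In the model `M`, `C` is the set `C(X, E)` of the continuous maps, and `(H, η)` is the Hewitt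
`E`-compact extension of `(X, τ)`: the closure `H` of the image of `X` under the evaluation map in
the power `E ^ C`, with the subspace topology `η`. -/
structure IsHewitt (M : Set ZFSet.{0}) (E σ X τ C H η : ZFSet.{0}) : Prop where
  maps : ∀ f, f ∈ C ↔ f ∈ M ∧ IsContMap X τ E σ f
  pts : ∀ g, g ∈ H ↔ g ∈ M ∧ ZFSet.IsFunc C E g ∧ ∀ F, IsBox M σ C F → InBox F g →
    ∃ x ∈ X, ∀ f V, pair f V ∈ F → ∃ e ∈ V, pair x e ∈ f
  top : ∀ U, U ∈ η ↔ U ∈ M ∧ U ⊆ H ∧ ∀ g ∈ U, ∃ F, IsBox M σ C F ∧ InBox F g ∧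
    ∀ g' ∈ H, InBox F g' → g' ∈ U

/-- In the model `M`, `(R, δ)` is the discrete space of the real numbers. -/
def IsRealDisc (M : Set ZFSet.{0}) (R δ : ZFSet.{0}) : Prop :=
  (∀ z, z ∈ R ↔ z ∈ M ∧ ∃ x : ℝ, z = cut x) ∧ ∀ U, U ∈ δ ↔ U ∈ M ∧ U ⊆ R

end Pool.Agent.R602.HE
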