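import Pool.Agent.R602.HE.Defs
import Pool.Agent.R602.CO.NDef

/-!
# The discrete space of the real numbers of a model
-/

set_option autoImplicit false
set_option linter.unusedTactic false
set_option linter.unreachableTactic false

namespace Pool.Agent.R602.HE

open Pool.Agent.W868
open Pool.Agent.R602.CO (cut code ltQ cut_inj mem_cut code_mem_cut code_inj exists_code
  code_mem_omega pair_mem_ltQ)
open Pool.Agent.R598.PM (IsTop FinIn)
open ZFSet (pair)

section

variable {M : Set ZFSet.{0}} (hM : IsZF M)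

include hM

theorem inter_mem {x y : ZFSet.{0}} (hx : x ∈ M) (hy : y ∈ M) : x ∩ y ∈ M := by
  have hB := hM.base
  have h1 := hM.sep_mem (Q := fun z => z ∈ y) (by
      (repeat' first
        | assumption
        | exact DfnF.proj _
        | exact DfnF.const (by assumption)
        | apply Dfn.iff | apply Dfn.not | apply Dfn.and | apply Dfn.or | apply Dfn.imp
        | apply hB.bex | apply hB.ball | apply hB.isFunc' | apply hB.isBij' | apply hB.subset'
        | apply Dfn.ex | apply Dfn.all | apply Dfn.eq | apply Dfn.mem | apply hB.pair'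
        | apply hB.single')) hx
  have h2 : ZFSet.sep (fun z => z ∈ y) x = x ∩ y := by
    ext z
    rw [ZFSet.mem_sep, ZFSet.mem_inter]
  rwa [h2] at h1

theorem sdiff_mem {x y : ZFSet.{0}} (hx : x ∈ M) (hy : y ∈ M) : x \ y ∈ M := by
  have hB := hM.base
  have h1 := hM.sep_mem (Q := fun z => ¬ z ∈ y) (by
      (repeat' first
        | assumption
        | exact DfnF.proj _
        | exact DfnF.const (by assumption)
        | apply Dfn.iff | apply Dfn.not | apply Dfn.and | apply Dfn.or | apply Dfn.imp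
        | apply hB.bex | apply hB.ball | apply hB.isFunc' | apply hB.isBij' | apply hB.subset'
        | apply Dfn.ex | apply Dfn.all | apply Dfn.eq | apply Dfn.mem | apply hB.pair'
        | apply hB.single')) hx
  have h2 : ZFSet.sep (fun z => ¬ z ∈ y) x = x \ y := by
    ext z
    rw [ZFSet.mem_sep, ZFSet.mem_sdiff]
  rwa [h2] at h1

theorem ratcut_mem (hlt : ltQ ∈ M) (q : ℚ) : cut (q : ℝ) ∈ M := by
  have hB := hM.base
  have hq : code q ∈ M := hM.nat_mem _
  have h1 := hM.sep_mem (Q := fun u => pair u (code q) ∈ ltQ) (by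
      (repeat' first
        | assumption
        | exact DfnF.proj _
        | exact DfnF.const (by assumption)
        | apply Dfn.iff | apply Dfn.not | apply Dfn.and | apply Dfn.or | apply Dfn.imp
        | apply hB.bex | apply hB.ball | apply hB.isFunc' | apply hB.isBij' | apply hB.subset'
        | apply Dfn.ex | apply Dfn.all | apply Dfn.eq | apply Dfn.mem | apply hB.pair'
        | apply hB.single')) hM.infinity
  have h2 : ZFSet.sep (fun u => pair u (code q) ∈ ltQ) ZFSet.omega = cut (q : ℝ) := by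
    ext z
    rw [ZFSet.mem_sep, mem_cut]
    constructor
    · rintro ⟨hz, h3⟩
      obtain ⟨p, rfl⟩ := exists_code hz
      exact ⟨p, by exact_mod_cast pair_mem_ltQ.1 h3, rfl⟩
    · rintro ⟨p, hp, rfl⟩
      exact ⟨code_mem_omega p, pair_mem_ltQ.2 (by exact_mod_cast hp)⟩
  rwa [h2] at h1

theorem cut0_mem (hlt : ltQ ∈ M) : cut 0 ∈ M := by
  have h := ratcut_mem hM hlt 0
  rwa [Rat.cast_zero] at h

theorem cut1_mem (hlt : ltQ ∈ M) : cut 1 ∈ M := by
  have h := ratcut_mem hM hlt 1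
  rwa [Rat.cast_one] at h

omit hM in
theorem cut01 : cut 0 ≠ cut 1 := fun h => zero_ne_one (cut_inj h)

end

/-- A two-valued function. -/
def IsChi (X U f : ZFSet.{0}) : Prop :=
  ∀ x ∈ X, ∀ c, pair x c ∈ f ↔ (x ∈ U ∧ c = cut 1) ∨ (x ∉ U ∧ c = cut 0)

section

variable {M : Set ZFSet.{0}} (hM : IsZF M) (hlt : ltQ ∈ M) {R δ : ZFSet.{0}} (hRM : R ∈ M)
  (hδM : δ ∈ M) (hR : IsRealDisc M R δ)

include hM hlt hRM hR in
theorem exists_chi {X U : ZFSet.{0}} (hX : X ∈ M) (hU : U ∈ M) :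
    ∃ f ∈ M, ZFSet.IsFunc X R f ∧ IsChi X U f := by
  have hB := hM.base
  have h0 := cut0_mem hM hlt
  have h1 := cut1_mem hM hlt
  have h0R : cut 0 ∈ R := (hR.1 _).2 ⟨h0, 0, rfl⟩
  have h1R : cut 1 ∈ R := (hR.1 _).2 ⟨h1, 1, rfl⟩
  obtain ⟨f, hf, hf1, hf2⟩ := hM.rel_mem hX hRM
    (Q := fun x c => (x ∈ U ∧ c = cut 1) ∨ ((¬ x ∈ U) ∧ c = cut 0)) (by
        (repeat' first
          | assumption
          | exact DfnF.proj _
          | exact DfnF.const (by assumption)
          | apply Dfn.iff | apply Dfn.not | apply Dfn.and | apply Dfn.or | apply Dfn.imp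
          | apply hB.bex | apply hB.ball | apply hB.isFunc' | apply hB.isBij' | apply hB.subset'
          | apply Dfn.ex | apply Dfn.all | apply Dfn.eq | apply Dfn.mem | apply hB.pair'
          | apply hB.single'))
  have hchi : IsChi X U f := by
    intro x hx c
    rw [hf2]
    constructor
    · exact fun h => h.2.2
    · rintro (⟨h2, rfl⟩ | ⟨h2, rfl⟩)
      · exact ⟨hx, h1R, Or.inl ⟨h2, rfl⟩⟩
      · exact ⟨hx, h0R, Or.inr ⟨h2, rfl⟩⟩
  refine ⟨f, hf, ⟨hf1, fun x hx => ?_⟩, hchi⟩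
  by_cases hxU : x ∈ U
  · refine ⟨cut 1, (hchi x hx _).2 (Or.inl ⟨hxU, rfl⟩), fun c hc => ?_⟩
    rcases (hchi x hx c).1 hc with h | h
    · exact h.2
    · exact absurd hxU h.1
  · refine ⟨cut 0, (hchi x hx _).2 (Or.inr ⟨hxU, rfl⟩), fun c hc => ?_⟩
    rcases (hchi x hx c).1 hc with h | h
    · exact absurd h.1 hxU
    · exact h.2

include hM hR in
theorem isTop_disc (hRM : R ∈ M) : IsTop M R δ := by
  refine ⟨fun O hO => ((hR.2 O).1 hO).2, (hR.2 _).2 ⟨hM.empty_mem, fun z hz =>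
    absurd hz (ZFSet.notMem_empty _)⟩, (hR.2 _).2 ⟨hRM, fun z hz => hz⟩, fun U hU V hV => ?_,
    fun C hC hCδ => ?_⟩
  · exact (hR.2 _).2 ⟨inter_mem hM ((hR.2 U).1 hU).1 ((hR.2 V).1 hV).1, fun z hz =>
      ((hR.2 U).1 hU).2 (ZFSet.mem_inter.1 hz).1⟩
  · refine (hR.2 _).2 ⟨hM.union _ hC, fun z hz => ?_⟩
    obtain ⟨U, hU, hzU⟩ := ZFSet.mem_sUnion.1 hz
    exact ((hR.2 U).1 (hCδ hU)).2 hzU

include hM hlt hRM hR in
/-- Every real function on the discrete space is continuous. -/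
theorem contReal_disc {f : ZFSet.{0}} (hf : f ∈ M)
    (h : ∀ x ∈ R, ∃ y : ℝ, ∀ c, pair x c ∈ f ↔ c = cut y) : IsContReal R δ f := by
  have hB := hM.base
  have hom := hM.infinity
  refine ⟨h, fun p => ⟨(hR.2 _).2 ⟨?_, fun z hz => (ZFSet.mem_sep.1 hz).1⟩,
    (hR.2 _).2 ⟨?_, fun z hz => (ZFSet.mem_sep.1 hz).1⟩⟩⟩
  · have hp : code p ∈ M := hM.nat_mem _
    have h1 := hM.sep_mem (Q := fun x => ∃ c ∈ R, pair x c ∈ f ∧ code p ∈ c) (by
        (repeat' first
          | assumption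
          | exact DfnF.proj _
          | exact DfnF.const (by assumption)
          | apply Dfn.iff | apply Dfn.not | apply Dfn.and | apply Dfn.or | apply Dfn.imp
          | apply hB.bex | apply hB.ball | apply hB.isFunc' | apply hB.isBij' | apply hB.subset'
          | apply Dfn.ex | apply Dfn.all | apply Dfn.eq | apply Dfn.mem | apply hB.pair'
          | apply hB.single')) hRM
    have h2 : ZFSet.sep (fun x => ∃ c ∈ R, pair x c ∈ f ∧ code p ∈ c) R =
        ZFSet.sep (fun x => ∃ y : ℝ, pair x (cut y) ∈ f ∧ (p : ℝ) < y) R := by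
      ext x
      rw [ZFSet.mem_sep, ZFSet.mem_sep]
      refine and_congr_right fun hx => ?_
      obtain ⟨y, hy⟩ := h x hx
      constructor
      · rintro ⟨c, -, h3, h4⟩
        rw [(hy c).1 h3, code_mem_cut] at h4
        exact ⟨y, (hy _).2 rfl, h4⟩
      · rintro ⟨z, h3, h4⟩
        exact ⟨cut z, (hR.1 _).2 ⟨(hM.of_pair_mem (hM.trans _ hf _ h3)).2, z, rfl⟩, h3,
          code_mem_cut.2 h4⟩
    rwa [h2] at h1
  · have hp : code p ∈ M := hM.nat_mem _
    have h1 := hM.sep_mem (Q := fun x => ∃ c ∈ R, pair x c ∈ f ∧ ∃ u ∈ ZFSet.omega,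
      (¬ u ∈ c) ∧ pair u (code p) ∈ ltQ) (by
          (repeat' first
            | assumption
            | exact DfnF.proj _
            | exact DfnF.const (by assumption)
            | apply Dfn.iff | apply Dfn.not | apply Dfn.and | apply Dfn.or | apply Dfn.imp
            | apply hB.bex | apply hB.ball | apply hB.isFunc' | apply hB.isBij' | apply hB.subset'
            | apply Dfn.ex | apply Dfn.all | apply Dfn.eq | apply Dfn.mem | apply hB.pair'
            | apply hB.single')) hRM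
    have h2 : ZFSet.sep (fun x => ∃ c ∈ R, pair x c ∈ f ∧ ∃ u ∈ ZFSet.omega,
        (¬ u ∈ c) ∧ pair u (code p) ∈ ltQ) R =
        ZFSet.sep (fun x => ∃ y : ℝ, pair x (cut y) ∈ f ∧ y < (p : ℝ)) R := by
      ext x
      rw [ZFSet.mem_sep, ZFSet.mem_sep]
      refine and_congr_right fun hx => ?_
      obtain ⟨y, hy⟩ := h x hx
      constructor
      · rintro ⟨c, -, h3, u, hu, h4, h5⟩
        obtain ⟨q, rfl⟩ := exists_code hu
        rw [(hy c).1 h3, code_mem_cut, not_lt] at h4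
        have h6 : (q : ℝ) < p := by exact_mod_cast pair_mem_ltQ.1 h5
        exact ⟨y, (hy _).2 rfl, h4.trans_lt h6⟩
      · rintro ⟨z, h3, h4⟩
        obtain ⟨q, h5, h6⟩ := exists_rat_btwn h4
        exact ⟨cut z, (hR.1 _).2 ⟨(hM.of_pair_mem (hM.trans _ hf _ h3)).2, z, rfl⟩, h3, code q,
          code_mem_omega q, fun h7 => absurd (code_mem_cut.1 h7) (not_lt.2 h5.le),
          pair_mem_ltQ.2 (by exact_mod_cast h6)⟩
    rwa [h2] at h1

include hM hlt hRM hR in
theorem tychonoff_disc : IsTychonoff M R δ := by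
  refine ⟨isTop_disc hM hR hRM, fun x hx => ?_, fun F hF hFR hFδ x hx hxF => ?_⟩
  · exact (hR.2 _).2 ⟨sdiff_mem hM hRM (hM.single_mem (hM.trans _ hRM _ hx)),
      fun z hz => (ZFSet.mem_sdiff.1 hz).1⟩
  · obtain ⟨f, hf, -, hchi⟩ := exists_chi hM hlt hRM hR hRM hF
    have key : ∀ z ∈ R, ∃ y : ℝ, (0 ≤ y ∧ y ≤ 1) ∧ ∀ c, pair z c ∈ f ↔ c = cut y := by
      intro z hz
      by_cases hzF : z ∈ F
      · refine ⟨1, ⟨zero_le_one, le_rfl⟩, fun c => ?_⟩
        rw [hchi z hz c]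
        constructor
        · rintro (h | h)
          · exact h.2
          · exact absurd hzF h.1
        · exact fun h => Or.inl ⟨hzF, h⟩
      · refine ⟨0, ⟨le_rfl, zero_le_one⟩, fun c => ?_⟩
        rw [hchi z hz c]
        constructor
        · rintro (h | h)
          · exact absurd h.1 hzF
          · exact h.2
        · exact fun h => Or.inr ⟨hzF, h⟩
    refine ⟨f, hf, contReal_disc hM hlt hRM hR hf fun z hz => ?_, fun z hz => ?_,
      (hchi x hx _).2 (Or.inr ⟨hxF, rfl⟩), fun z hz => (hchi z (hFR hz) _).2 (Or.inl ⟨hz, rfl⟩)⟩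
    · obtain ⟨y, -, hy⟩ := key z hz
      exact ⟨y, hy⟩
    · obtain ⟨y, h1, hy⟩ := key z hz
      exact ⟨y, (hy _).2 rfl, h1⟩

include hM in
theorem single_box {σ J j V : ZFSet.{0}} (hJ : J ∈ M) (hσ : σ ∈ M) (hj : j ∈ J) (hV : V ∈ σ) :
    IsBox M σ J {pair j V} := by
  have h1 : pair j V ∈ M := hM.pair_mem (hM.trans _ hJ _ hj) (hM.trans _ hσ _ hV)
  refine ⟨hM.single_mem h1, CO.finIn_single hM h1, fun p hp => ⟨j, hj, V, hV, ?_⟩⟩
  exact ZFSet.mem_singleton.1 hp

theorem inBox_single {j V g : ZFSet.{0}} : InBox {pair j V} g ↔ ∃ e ∈ V, pair j e ∈ g := by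
  constructor
  · exact fun h => h j V (ZFSet.mem_singleton.2 rfl)
  · intro h j' V' h'
    obtain ⟨rfl, rfl⟩ := ZFSet.pair_inj.1 (ZFSet.mem_singleton.1 h')
    exact h

include hM hRM hδM hR in
theorem eCompact_disc : ECompact M R δ R δ := by
  have hB := hM.base
  have h0 := hM.empty_mem
  have hJ : ({∅} : ZFSet.{0}) ∈ M := hM.single_mem h0
  have hJm : ∀ z, z ∈ ({∅} : ZFSet.{0}) ↔ z = ∅ := fun z => ZFSet.mem_singleton
  obtain ⟨Pw, hPw, hPw'⟩ := hM.power _ (hM.prod_mem hJ hRM)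
  have hC := hM.sep_mem (Q := fun g => ∃ r ∈ R, g = {pair ∅ r}) (by
      (repeat' first
        | assumption
        | exact DfnF.proj _
        | exact DfnF.const (by assumption)
        | apply Dfn.iff | apply Dfn.not | apply Dfn.and | apply Dfn.or | apply Dfn.imp
        | apply hB.bex | apply hB.ball | apply hB.isFunc' | apply hB.isBij' | apply hB.subset'
        | apply Dfn.ex | apply Dfn.all | apply Dfn.eq | apply Dfn.mem | apply hB.pair'
        | apply hB.single')) hPw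
  set C := ZFSet.sep (fun g => ∃ r ∈ R, g = {pair ∅ r}) Pw with hCdef
  have hC' : ∀ g, g ∈ C ↔ ∃ r ∈ R, g = {pair ∅ r} := by
    intro g
    rw [hCdef, ZFSet.mem_sep, hPw']
    constructor
    · exact fun h => h.2
    · rintro ⟨r, hr, rfl⟩
      refine ⟨⟨hM.single_mem (hM.pair_mem h0 (hM.trans _ hRM _ hr)), fun z hz => ?_⟩, r, hr, rfl⟩
      rw [ZFSet.mem_singleton.1 hz]
      exact ZFSet.pair_mem_prod.2 ⟨(hJm _).2 rfl, hr⟩
  obtain ⟨h, hh, hh1, hh2⟩ := hM.rel_mem hRM hC (Q := fun r g => g = {pair ∅ r}) (by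
      (repeat' first
        | assumption
        | exact DfnF.proj _
        | exact DfnF.const (by assumption)
        | apply Dfn.iff | apply Dfn.not | apply Dfn.and | apply Dfn.or | apply Dfn.imp
        | apply hB.bex | apply hB.ball | apply hB.isFunc' | apply hB.isBij' | apply hB.subset'
        | apply Dfn.ex | apply Dfn.all | apply Dfn.eq | apply Dfn.mem | apply hB.pair'
        | apply hB.single'))
  have hsi : ∀ a b : ZFSet.{0}, ({pair ∅ a} : ZFSet.{0}) = {pair ∅ b} → a = b := by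
    intro a b hab
    have h1 : pair ∅ a ∈ ({pair ∅ b} : ZFSet.{0}) := hab ▸ ZFSet.mem_singleton.2 rfl
    exact (ZFSet.pair_inj.1 (ZFSet.mem_singleton.1 h1)).2
  have hfun : ∀ r ∈ R, ZFSet.IsFunc {∅} R {pair ∅ r} := by
    intro r hr
    refine ⟨fun z hz => ?_, fun z hz => ?_⟩
    · rw [ZFSet.mem_singleton.1 hz]
      exact ZFSet.pair_mem_prod.2 ⟨(hJm _).2 rfl, hr⟩
    · rw [(hJm z).1 hz]
      exact ⟨r, ZFSet.mem_singleton.2 rfl, fun w hw =>
        (ZFSet.pair_inj.1 (ZFSet.mem_singleton.1 hw)).2⟩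
  refine ⟨{∅}, hJ, fun h1 => ?_, C, hC, h, hh, ⟨fun g hg => ?_, ⟨⟨⟨hh1, fun r hr => ?_⟩, ?_⟩, ?_⟩,
    fun U hU hUR => ?_⟩, fun g hg hgf _ => ?_⟩
  · exact absurd (h1 ▸ (hJm ∅).2 rfl) (ZFSet.notMem_empty _)
  · obtain ⟨r, hr, rfl⟩ := (hC' g).1 hg
    exact hfun r hr
  · exact ⟨{pair ∅ r}, (hh2 _ _).2 ⟨hr, (hC' _).2 ⟨r, hr, rfl⟩, rfl⟩, fun w hw =>
      ((hh2 _ _).1 hw).2.2⟩
  · intro a b c hac hbc
    exact hsi a b ((((hh2 _ _).1 hac).2.2).symm.trans ((hh2 _ _).1 hbc).2.2)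
  · intro g hg
    obtain ⟨r, hr, rfl⟩ := (hC' g).1 hg
    exact ⟨r, hr, (hh2 _ _).2 ⟨hr, hg, rfl⟩⟩
  · constructor
    · intro _ x hx g hxg
      have hxR := hUR hx
      have hg' := ((hh2 _ _).1 hxg).2.2
      have hxδ : {x} ∈ δ := (hR.2 _).2 ⟨hM.single_mem (hM.trans _ hRM _ hxR), fun z hz =>
        (ZFSet.mem_singleton.1 hz) ▸ hxR⟩
      refine ⟨{pair ∅ {x}}, single_box hM hJ hδM ((hJm _).2 rfl) hxδ, ?_, fun y hy g' hyg' hbox => ?_⟩
      · rw [inBox_single, hg']
        exact ⟨x, ZFSet.mem_singleton.2 rfl, ZFSet.mem_singleton.2 rfl⟩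
      · rw [inBox_single, ((hh2 _ _).1 hyg').2.2] at hbox
        obtain ⟨e, he, he'⟩ := hbox
        rw [ZFSet.mem_singleton.1 he] at he'
        have h1 := (ZFSet.pair_inj.1 (ZFSet.mem_singleton.1 he')).2
        rw [← h1]
        exact hx
    · exact fun _ => (hR.2 U).2 ⟨hU, hUR⟩
  · obtain ⟨r, hr, hr'⟩ := hgf.2 ∅ ((hJm _).2 rfl)
    refine (hC' g).2 ⟨r, (ZFSet.pair_mem_prod.1 (hgf.1 hr)).2, ?_⟩
    ext z
    constructor
    · intro hz
      obtain ⟨a, ha, b, hb, rfl⟩ := ZFSet.mem_prod.1 (hgf.1 hz)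
      have ha' := (hJm a).1 ha
      subst ha'
      rw [hr' b hz]
      exact ZFSet.mem_singleton.2 rfl
    · intro hz
      rw [ZFSet.mem_singleton.1 hz]
      exact hr

end

end Pool.Agent.R602.HE
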