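import Pool.Agent.R602.HE.Hw

/-!
# The Hewitt extension is not a P-space
-/

set_option autoImplicit false
set_option linter.unusedTactic false
set_option linter.unreachableTactic false

namespace Pool.Agent.R602.HE

open Pool.Agent.W868 Pool.Agent.R602.PP
open Pool.Agent.R602.CO (cut code ltQ cut_inj mem_cut code_mem_cut code_inj exists_code
  code_mem_omega pair_mem_ltQ)
open Pool.Agent.R598.PM (IsTop FinIn)
open ZFSet (pair)

/-- The germ at the end of the block `n`. -/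
def IsEnd (A K L C R g n : ZFSet.{0}) : Prop :=
  ∀ f ∈ C, ∀ v ∈ R, (pair f v ∈ g ↔ ∃ q ∈ A, pair n q ∈ K ∧ ∀ a ∈ A, pair q a ∈ L → pair a v ∈ f)

section

variable {M : Set ZFSet.{0}} {b : ℕ × ℚ → ZFSet.{0}} {A K L R δ X τ C H η : ZFSet.{0}}
  (c : Ctx M b A K L R δ X τ) (hCM : C ∈ M) (hHM : H ∈ M) (hηM : η ∈ M)
  (hH : IsHewitt M R δ X τ C H η)

include c

theorem Ctx.end_iff {n : ℕ} {f v : ZFSet.{0}} :
    (∃ q ∈ A, pair (nat n) q ∈ K ∧ ∀ a ∈ A, pair q a ∈ L → pair a v ∈ f) ↔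
      ∃ q : ℚ, ∀ r, q < r → pair (b (n, r)) v ∈ f := by
  constructor
  · rintro ⟨q, hq, h1, h2⟩
    obtain ⟨⟨m, q⟩, rfl⟩ := (c.pp.mem_A _).1 hq
    have h4 : m = n := (pair_K c.pp).1 h1
    subst h4
    exact ⟨q, fun r hr => h2 _ ((c.pp.mem_A _).2 ⟨_, rfl⟩)
      ((isL_true c.pp _ _).2 ⟨rfl, ltS_true.2 hr⟩)⟩
  · rintro ⟨q, hq⟩
    refine ⟨b (n, q), (c.pp.mem_A _).2 ⟨_, rfl⟩, (pair_K c.pp).2 rfl, fun a ha haq => ?_⟩
    obtain ⟨⟨m, r⟩, rfl⟩ := (c.pp.mem_A _).1 ha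
    obtain ⟨h2, h3⟩ := (isL_true c.pp _ _).1 haq
    have h4 : n = m := h2
    subst h4
    exact hq r (ltS_true.1 h3)

include hCM hH in
/-- The points at the ends of the blocks. -/
theorem Ctx.exists_end (n : ℕ) : ∃ g ∈ H, ∀ f v, pair f v ∈ g ↔ f ∈ C ∧
    ∃ q : ℚ, ∀ r, q < r → pair (b (n, r)) v ∈ f := by
  have hM := c.zf
  have hB := hM.base
  have hRM := c.RM
  have hAM := c.pp.A_mem
  have hKM := c.pp.K_mem
  have hLM := c.pp.L_mem
  have hn : nat n ∈ M := hM.nat_mem n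
  have hfun : ∀ f ∈ C, ZFSet.IsFunc X R f := fun f hf => ((hH.maps f).1 hf).2.1
  obtain ⟨g, hg, hg1, hg2⟩ := hM.rel_mem hCM hRM (Q := fun f v => ∃ q ∈ A, pair (nat n) q ∈ K ∧
    ∀ a ∈ A, pair q a ∈ L → pair a v ∈ f) (by
        (repeat' first
          | assumption
          | exact DfnF.proj _
          | exact DfnF.const (by assumption)
          | apply hB.isFunc' | apply hB.isBij'
          | apply Dfn.iff | apply Dfn.not | apply Dfn.and | apply Dfn.or | apply Dfn.imp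
          | apply hB.bex | apply hB.ball | apply hB.subset'
          | apply Dfn.ex | apply Dfn.all | apply Dfn.eq | apply Dfn.mem | apply hB.pair'
          | apply hB.single'))
  have h3 : ∀ f v, pair f v ∈ g ↔ f ∈ C ∧ ∃ q : ℚ, ∀ r, q < r → pair (b (n, r)) v ∈ f := by
    intro f v
    rw [hg2, c.end_iff]
    constructor
    · exact fun h => ⟨h.1, h.2.2⟩
    · rintro ⟨h1, q, hq⟩
      exact ⟨h1, (ZFSet.pair_mem_prod.1 ((hfun f h1).1 (hq (q + 1) (lt_add_one q)))).2, q, hq⟩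
  refine ⟨g, (hH.pts g).2 ⟨hg, ⟨hg1, fun f hf => ?_⟩, fun F hF hFg => ?_⟩, h3⟩
  · obtain ⟨v, hvR, q, hq⟩ := c.far ((hH.maps f).1 hf).1 (hfun f hf) n
    refine ⟨v, (h3 _ _).2 ⟨hf, q, hq⟩, fun w hw => ?_⟩
    obtain ⟨-, q', hq'⟩ := (h3 _ _).1 hw
    have h4 := hq (max q q' + 1) (lt_of_le_of_lt (le_max_left q q') (lt_add_one _))
    have h5 := hq' (max q q' + 1) (lt_of_le_of_lt (le_max_right q q') (lt_add_one _))
    exact fun_uniq (hfun f hf) h5 h4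
  · have h1 : ∀ z, z ∈ F → ∃ q : ℚ, ∀ f V, z = pair f V → ∀ r, q < r → ∃ e ∈ V,
        pair (b (n, r)) e ∈ f := by
      intro z hz
      obtain ⟨f, hf, V, hV, rfl⟩ := hF.2.2 z hz
      obtain ⟨e, he, hAe⟩ := hFg f V hz
      obtain ⟨-, q, hq⟩ := (h3 _ _).1 hAe
      refine ⟨q, fun f' V' h2 r hr => ?_⟩
      obtain ⟨rfl, rfl⟩ := ZFSet.pair_inj.1 h2
      exact ⟨e, he, hq r hr⟩
    choose! Q hQ using h1
    obtain ⟨m, hm⟩ := (hF.finite.image Q).bddAbove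
    refine ⟨b (n, m + 1), c.bX _, fun f V hfV => ?_⟩
    exact hQ _ hfV f V rfl _ (lt_of_le_of_lt (hm ⟨_, hfV, rfl⟩) (lt_add_one m))

include hCM hHM hH in
/-- The Hewitt extension is not a P-space. -/
theorem Ctx.not_psp : ¬ IsPSpace M H η := by
  intro hP
  have hM := c.zf
  have hB := hM.base
  have hRM := c.RM
  have hδM := c.δM
  have hAM := c.pp.A_mem
  have hKM := c.pp.K_mem
  have hLM := c.pp.L_mem
  have hom := hM.infinity
  have hC := hH.maps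
  have hfun : ∀ f ∈ C, ZFSet.IsFunc X R f := fun f hf => ((hH.maps f).1 hf).2.1
  have hHsub : ∀ g ∈ H, g ⊆ ZFSet.prod C R := fun g hg => ((hH.pts g).1 hg).2.1.1
  -- extensionality
  have hext : ∀ g ∈ H, ∀ g' ∈ H, (∀ f ∈ C, ∀ v, pair f v ∈ g ↔ pair f v ∈ g') → g = g' := by
    intro g hg g' hg' h1
    ext z
    constructor
    · intro hz
      obtain ⟨f, hf, v, -, rfl⟩ := ZFSet.mem_prod.1 (hHsub g hg hz)
      exact (h1 f hf v).1 hz
    · intro hz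
      obtain ⟨f, hf, v, -, rfl⟩ := ZFSet.mem_prod.1 (hHsub g' hg' hz)
      exact (h1 f hf v).2 hz
  -- the point `p`
  obtain ⟨p, hpM, hp1, hp2⟩ := hM.rel_mem hCM hRM (Q := fun f v => pair A v ∈ f) (by
      (repeat' first
        | assumption
        | exact DfnF.proj _
        | exact DfnF.const (by assumption)
        | apply hB.isFunc' | apply hB.isBij'
        | apply Dfn.iff | apply Dfn.not | apply Dfn.and | apply Dfn.or | apply Dfn.imp
        | apply hB.bex | apply hB.ball | apply hB.subset'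
        | apply Dfn.ex | apply Dfn.all | apply Dfn.eq | apply Dfn.mem | apply hB.pair'
        | apply hB.single'))
  have hp3 : ∀ f v, pair f v ∈ p ↔ f ∈ C ∧ pair A v ∈ f := by
    intro f v
    rw [hp2]
    constructor
    · exact fun h => ⟨h.1, h.2.2⟩
    · exact fun h => ⟨h.1, (ZFSet.pair_mem_prod.1 ((hfun f h.1).1 h.2)).2, h.2⟩
  have hpH : p ∈ H := by
    refine (hH.pts p).2 ⟨hpM, ⟨hp1, fun f hf => ?_⟩, fun F hF hFp => ⟨A, c.AX, fun f V hfV => ?_⟩⟩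
    · obtain ⟨v, -, hv, hu⟩ := fun_val (hfun f hf) c.AX
      exact ⟨v, (hp3 _ _).2 ⟨hf, hv⟩, fun w hw => hu w ((hp3 _ _).1 hw).2⟩
    · obtain ⟨e, he, he'⟩ := hFp f V hfV
      exact ⟨e, he, ((hp3 _ _).1 he').2⟩
  choose e heH he using c.exists_end hCM hH
  have hEnd : ∀ g ∈ H, ∀ n : ℕ, IsEnd A K L C R g (nat n) ↔ g = e n := by
    intro g hg n
    constructor
    · intro h1
      refine hext g hg (e n) (heH n) fun f hf v => ?_
      rw [he]
      constructor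
      · intro h2
        exact ⟨hf, c.end_iff.1 ((h1 f hf v (ZFSet.pair_mem_prod.1 (hHsub g hg h2)).2).1 h2)⟩
      · rintro ⟨-, q, hq⟩
        have hvR := (ZFSet.pair_mem_prod.1 ((hfun f hf).1 (hq (q + 1) (lt_add_one q)))).2
        exact (h1 f hf v hvR).2 (c.end_iff.2 ⟨q, hq⟩)
    · rintro rfl f hf v hv
      rw [he, c.end_iff]
      exact ⟨fun h => h.2, fun h => ⟨hf, h⟩⟩
  -- the points are distinct
  have hcone : ∀ n : ℕ, ∃ f ∈ C, pair f (cut 1) ∈ p ∧ pair f (cut 0) ∈ e n ∧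
      ∀ m, m ≠ n → pair f (cut 1) ∈ e m := by
    intro n
    obtain ⟨U, hU, hU', hAU, hUi⟩ := c.exists_cone n
    obtain ⟨f, hf, hchi⟩ := c.exists_chi' hC hU hU'
    refine ⟨f, hf, (hp3 _ _).2 ⟨hf, (hchi A c.AX _).2 (Or.inl ⟨hAU, rfl⟩)⟩,
      (he _ _ _).2 ⟨hf, 0, fun r hr => ?_⟩, fun m hm => (he _ _ _).2 ⟨hf, 0, fun r hr => ?_⟩⟩
    · refine (hchi _ (c.bX _) _).2 (Or.inr ⟨fun h1 => ?_, rfl⟩)
      exact lt_asymm hr ((hUi _).1 h1 rfl)
    · exact (hchi _ (c.bX _) _).2 (Or.inl ⟨(hUi _).2 fun h1 => absurd h1 hm, rfl⟩)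
  have huniq : ∀ g ∈ H, ∀ f v w, pair f v ∈ g → pair f w ∈ g → v = w := fun g hg f v w h1 h2 =>
    fun_uniq ((hH.pts g).1 hg).2.1 h1 h2
  have hpe : ∀ n, p ≠ e n := by
    intro n h1
    obtain ⟨f, hf, h2, h3, -⟩ := hcone n
    rw [← h1] at h3
    exact cut01 (huniq p hpH f _ _ h3 h2)
  have hee : ∀ n m, e n = e m → n = m := by
    intro n m h1
    by_contra hne
    obtain ⟨f, hf, -, h3, h4⟩ := hcone n
    have h5 := h4 m (Ne.symm hne)
    rw [← h1] at h5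
    exact cut01 (huniq (e n) (heH n) f _ _ h3 h5)
  -- the open sets
  have hG : ∀ n, H \ {e n} ∈ η := by
    intro n
    refine (hH.top _).2 ⟨sdiff_mem hM hHM (hM.single_mem (hM.trans _ hHM _ (heH n))),
      fun z hz => (ZFSet.mem_sdiff.1 hz).1, fun g hg => ?_⟩
    obtain ⟨hgH, hge⟩ := ZFSet.mem_sdiff.1 hg
    have h1 : ∃ f ∈ C, ∃ v, ¬ (pair f v ∈ g ↔ pair f v ∈ e n) := by
      by_contra hc
      push Not at hc
      exact hge (ZFSet.mem_singleton.2 (hext g hgH (e n) (heH n) fun f hf v => hc f hf v))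
    obtain ⟨f, hf, v, h2⟩ := h1
    obtain ⟨w, hw, -⟩ := ((hH.pts g).1 hgH).2.1.2 f hf
    have hwR := (ZFSet.pair_mem_prod.1 (hHsub g hgH hw)).2
    refine ⟨{pair f {w}}, single_box hM hCM hδM hf (c.single_δ hwR), ?_, fun g' hg' hbox => ?_⟩
    · rw [inBox_single]
      exact ⟨w, ZFSet.mem_singleton.2 rfl, hw⟩
    · rw [inBox_single] at hbox
      obtain ⟨u, hu, hu'⟩ := hbox
      rw [ZFSet.mem_singleton.1 hu] at hu'
      refine ZFSet.mem_sdiff.2 ⟨hg', fun h3 => h2 ?_⟩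
      rw [ZFSet.mem_singleton.1 h3] at hu'
      constructor
      · intro h4
        rwa [huniq g hgH f _ _ h4 hw]
      · intro h4
        rwa [huniq (e n) (heH n) f _ _ h4 hu']
  -- the family
  obtain ⟨Pw, hPw, hPw'⟩ := hM.power _ hHM
  have hD := hM.sep_mem (Q := fun W => ∃ n ∈ ZFSet.omega, ∀ g ∈ H, (g ∈ W ↔ ¬
    ∀ f ∈ C, ∀ v ∈ R, (pair f v ∈ g ↔ ∃ q ∈ A, pair n q ∈ K ∧ ∀ a ∈ A, pair q a ∈ L →
      pair a v ∈ f))) (by
          (repeat' first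
            | assumption
            | exact DfnF.proj _
            | exact DfnF.const (by assumption)
            | apply hB.isFunc' | apply hB.isBij'
            | apply Dfn.iff | apply Dfn.not | apply Dfn.and | apply Dfn.or | apply Dfn.imp
            | apply hB.bex | apply hB.ball | apply hB.subset'
            | apply Dfn.ex | apply Dfn.all | apply Dfn.eq | apply Dfn.mem | apply hB.pair'
            | apply hB.single')) hPw
  set D := ZFSet.sep (fun W => ∃ n ∈ ZFSet.omega, ∀ g ∈ H, (g ∈ W ↔ ¬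
    ∀ f ∈ C, ∀ v ∈ R, (pair f v ∈ g ↔ ∃ q ∈ A, pair n q ∈ K ∧ ∀ a ∈ A, pair q a ∈ L →
      pair a v ∈ f))) Pw with hDdef
  have hW : ∀ W, W ⊆ H → ∀ n : ℕ, (∀ g ∈ H, (g ∈ W ↔ ¬ IsEnd A K L C R g (nat n))) ↔
      W = H \ {e n} := by
    intro W hWH n
    constructor
    · intro h1
      ext g
      rw [ZFSet.mem_sdiff]
      constructor
      · intro hg
        exact ⟨hWH hg, fun h2 => (h1 g (hWH hg)).1 hg ((hEnd g (hWH hg) n).2
          (ZFSet.mem_singleton.1 h2))⟩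
      · rintro ⟨hg, h2⟩
        exact (h1 g hg).2 fun h3 => h2 (ZFSet.mem_singleton.2 ((hEnd g hg n).1 h3))
    · rintro rfl g hg
      rw [ZFSet.mem_sdiff, hEnd g hg, ZFSet.mem_singleton]
      exact ⟨fun h => h.2, fun h => ⟨hg, h⟩⟩
  have hD' : ∀ W, W ∈ D ↔ ∃ n : ℕ, W = H \ {e n} := by
    intro W
    rw [hDdef, ZFSet.mem_sep, hPw']
    constructor
    · rintro ⟨⟨-, h1⟩, n, hn, h2⟩
      obtain ⟨n, rfl⟩ := mem_omega_iff.1 hn
      exact ⟨n, (hW W h1 n).1 h2⟩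
    · rintro ⟨n, rfl⟩
      have h1 : H \ {e n} ⊆ H := fun z hz => (ZFSet.mem_sdiff.1 hz).1
      exact ⟨⟨((hH.top _).1 (hG n)).1, h1⟩, nat n, mem_omega_iff.2 ⟨n, rfl⟩, (hW _ h1 n).2 rfl⟩
  have hGinj : ∀ n m, H \ {e n} = H \ {e m} → n = m := by
    intro n m hnm
    by_contra hne
    have h1 : e n ∈ H \ {e m} := ZFSet.mem_sdiff.2 ⟨heH n, fun h2 =>
      hne (hee n m (ZFSet.mem_singleton.1 h2))⟩
    rw [← hnm] at h1
    exact (ZFSet.mem_sdiff.1 h1).2 (ZFSet.mem_singleton.2 rfl)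
  have hcount : CountIn M D := by
    obtain ⟨f, hf, hf1, hf2⟩ := hM.rel_mem hD hom (Q := fun W n => ∀ g ∈ H, (g ∈ W ↔ ¬
      ∀ f ∈ C, ∀ v ∈ R, (pair f v ∈ g ↔ ∃ q ∈ A, pair n q ∈ K ∧ ∀ a ∈ A, pair q a ∈ L →
        pair a v ∈ f))) (by
            (repeat' first
              | assumption
              | exact DfnF.proj _
              | exact DfnF.const (by assumption)
              | apply hB.isFunc' | apply hB.isBij'
              | apply Dfn.iff | apply Dfn.not | apply Dfn.and | apply Dfn.or | apply Dfn.imp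
              | apply hB.bex | apply hB.ball | apply hB.subset'
              | apply Dfn.ex | apply Dfn.all | apply Dfn.eq | apply Dfn.mem | apply hB.pair'
              | apply hB.single'))
    have key : ∀ W n, pair W n ∈ f → ∃ k, n = nat k ∧ W = H \ {e k} := by
      intro W n hWn
      obtain ⟨h1, h2, h3⟩ := (hf2 _ _).1 hWn
      obtain ⟨k, rfl⟩ := mem_omega_iff.1 h2
      exact ⟨k, rfl, (hW W ((hPw' _).1 (ZFSet.mem_sep.1 h1).1).2 k).1 h3⟩
    refine ⟨f, hf, ⟨hf1, fun W hWD => ?_⟩, fun W W' n h1 h2 => ?_⟩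
    · obtain ⟨n, rfl⟩ := (hD' W).1 hWD
      have h1 : H \ {e n} ⊆ H := fun z hz => (ZFSet.mem_sdiff.1 hz).1
      refine ⟨nat n, (hf2 _ _).2 ⟨hWD, mem_omega_iff.2 ⟨n, rfl⟩, (hW _ h1 n).2 rfl⟩,
        fun m hm => ?_⟩
      obtain ⟨k, rfl, hk⟩ := key _ _ hm
      rw [hGinj _ _ hk]
    · obtain ⟨k, rfl, rfl⟩ := key _ _ h1
      obtain ⟨k', hk', rfl⟩ := key _ _ h2
      rw [nat_injective hk']
  have hDne : D ≠ ∅ := fun h1 => absurd (h1 ▸ (hD' _).2 ⟨0, rfl⟩) (ZFSet.notMem_empty _)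
  have hDη : D ⊆ η := by
    intro W hWD
    obtain ⟨n, rfl⟩ := (hD' W).1 hWD
    exact hG n
  obtain ⟨V, hV, hpV, hVsub⟩ := hP.2 D hD hDne hDη hcount p hpH fun W hWD => by
    obtain ⟨n, rfl⟩ := (hD' W).1 hWD
    exact ZFSet.mem_sdiff.2 ⟨hpH, fun h2 => hpe n (ZFSet.mem_singleton.1 h2)⟩
  obtain ⟨F, hF, hFp, hFV⟩ := ((hH.top V).1 hV).2.2 p hpV
  -- the bad blocks
  have hbad : ∃ n : ℕ, ∀ f V, pair f V ∈ F → ∃ v ∈ V, ∀ r, pair (b (n, r)) v ∈ f := by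
    have h1 : (⋃ z ∈ {z | z ∈ F}, {n : ℕ | ¬ ∀ f V, z = pair f V → ∃ v ∈ V, ∀ r,
        pair (b (n, r)) v ∈ f}).Finite := by
      refine hF.finite.biUnion fun z hz => ?_
      obtain ⟨f, hf, V, hV, rfl⟩ := hF.2.2 z hz
      obtain ⟨v, hvV, hv⟩ := hFp f V hz
      refine (c.const ((hC f).1 hf).1 ((hC f).1 hf).2 ((hp3 _ _).1 hv).2).subset fun n hn h2 => ?_
      refine hn fun f' V' h3 => ?_
      obtain ⟨rfl, rfl⟩ := ZFSet.pair_inj.1 h3
      exact ⟨v, hvV, h2⟩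
    obtain ⟨n, hn⟩ := h1.exists_notMem
    refine ⟨n, fun f V hfV => ?_⟩
    by_contra hc
    refine hn (Set.mem_biUnion hfV fun h2 => hc (h2 f V rfl))
  obtain ⟨n, hn⟩ := hbad
  have h1 : e n ∈ V := by
    refine hFV (e n) (heH n) fun f V' hfV => ?_
    obtain ⟨v, hv, h2⟩ := hn f V' hfV
    obtain ⟨f', hf', V'', -, h3⟩ := hF.2.2 _ hfV
    obtain ⟨rfl, rfl⟩ := ZFSet.pair_inj.1 h3
    exact ⟨v, hv, (he _ _ _).2 ⟨hf', 0, fun r _ => h2 r⟩⟩
  exact (ZFSet.mem_sdiff.1 (hVsub _ ((hD' _).2 ⟨n, rfl⟩) h1)).2 (ZFSet.mem_singleton.2 rfl)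

end

end Pool.Agent.R602.HE
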