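import Pool.Agent.R602.HE.Sp

/-!
# The Hewitt extension is not a P-space
-/

set_option autoImplicit false
set_option linter.unusedTactic false
set_option linter.unreachableTactic false

namespace Pool.Agent.R602.HE

open Pool.Agent.W868 Pool.Agent.R602.PP
open Pool.Agent.R602.CO (cut code ltQ cut_inj mem_cut code_mem_cut code_inj exists_code
  code_mem_omega pair_mem_ltQ)
open Pool.Agent.R598.PM (IsTop FinIn)
open ZFSet (pair)

theorem IsBox.finite {M : Set ZFSet.{0}} {σ J F : ZFSet.{0}} (h : IsBox M σ J F) :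
    {z | z ∈ F}.Finite := CO.FinIn.finite (M := M) h.2.1

section

variable {M : Set ZFSet.{0}} {b : ℕ × ℚ → ZFSet.{0}} {A K L R δ X τ C : ZFSet.{0}}
  (c : Ctx M b A K L R δ X τ) (hCM : C ∈ M) (hC : ∀ f, f ∈ C ↔ f ∈ M ∧ IsContMap X τ R δ f)

include c

/-- The characteristic function of a clopen set. -/
theorem Ctx.exists_chi' (hC : ∀ f, f ∈ C ↔ f ∈ M ∧ IsContMap X τ R δ f) {U : ZFSet.{0}}
    (hU : U ∈ τ) (hU' : X \ U ∈ τ) : ∃ f ∈ C, IsChi X U f := by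
  obtain ⟨f, hf, h1, h2⟩ := exists_chi c.zf c.lt c.RM c.real c.XM ((c.top U).1 hU).1
  exact ⟨f, (hC f).2 ⟨hf, c.chi_cont hU hU' h1 h2⟩, h2⟩

theorem Ctx.single_δ {v : ZFSet.{0}} (hv : v ∈ R) : ({v} : ZFSet.{0}) ∈ δ :=
  (c.real.2 _).2 ⟨c.zf.single_mem (c.zf.trans _ c.RM _ hv), fun _ hz =>
    (ZFSet.mem_singleton.1 hz) ▸ hv⟩

theorem Ctx.cut0R : cut 0 ∈ R := (c.real.1 _).2 ⟨cut0_mem c.zf c.lt, 0, rfl⟩

theorem Ctx.cut1R : cut 1 ∈ R := (c.real.1 _).2 ⟨cut1_mem c.zf c.lt, 1, rfl⟩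

/-- The clopen cone at a point of a block. -/
theorem Ctx.exists_cone (n : ℕ) : ∃ U ∈ τ, X \ U ∈ τ ∧ A ∈ U ∧
    ∀ i : ℕ × ℚ, b i ∈ U ↔ (i.1 = n → i.2 < 0) := by
  have hM := c.zf
  have hB := hM.base
  have hi := c.pp.b_mem (n, 0)
  have hn : nat n ∈ M := hM.nat_mem _
  have hKM := c.pp.K_mem
  have hLM := c.pp.L_mem
  have h1 := hM.sep_mem (Q := fun z => pair (nat n) z ∈ K → pair z (b (n, 0)) ∈ L) (by
      (repeat' first
        | assumption
        | exact DfnF.proj _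
        | exact DfnF.const (by assumption)
        | apply hB.isFunc' | apply hB.isBij'
        | apply Dfn.iff | apply Dfn.not | apply Dfn.and | apply Dfn.or | apply Dfn.imp
        | apply hB.bex | apply hB.ball | apply hB.subset'
        | apply Dfn.ex | apply Dfn.all | apply Dfn.eq | apply Dfn.mem | apply hB.pair'
        | apply hB.single')) c.XM
  have h2 : ∀ i : ℕ × ℚ, b i ∈ ZFSet.sep (fun z => pair (nat n) z ∈ K → pair z (b (n, 0)) ∈ L) X ↔
      (i.1 = n → i.2 < 0) := by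
    intro i
    rw [ZFSet.mem_sep, pair_K c.pp, isL_true c.pp, ltS_true]
    constructor
    · rintro ⟨-, h3⟩ h4
      exact (h3 h4).2
    · intro h3
      exact ⟨c.bX i, fun h4 => ⟨h4, h3 h4⟩⟩
  have hA : A ∈ ZFSet.sep (fun z => pair (nat n) z ∈ K → pair z (b (n, 0)) ∈ L) X :=
    ZFSet.mem_sep.2 ⟨c.AX, fun h3 => absurd h3 (not_K_A c.pp _)⟩
  refine ⟨_, (c.top _).2 ⟨h1, fun z hz => (ZFSet.mem_sep.1 hz).1, fun _ m => ⟨0, fun r hr =>
    (h2 _).2 fun _ => hr⟩⟩, c.isol (sdiff_mem hM c.XM h1) (fun z hz => (ZFSet.mem_sdiff.1 hz).1)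
    (fun h => (ZFSet.mem_sdiff.1 h).2 hA), hA, h2⟩

/-- Near `A` all points are in a given box around the image of `A`. -/
theorem Ctx.near_box (hC : ∀ f, f ∈ C ↔ f ∈ M ∧ IsContMap X τ R δ f) {F : ZFSet.{0}}
    (hF : IsBox M δ C F) (hA : ∀ f V, pair f V ∈ F → ∃ e ∈ V, pair A e ∈ f) (n : ℕ) :
    ∃ q : ℚ, ∀ r, r < q → ∀ f V, pair f V ∈ F → ∃ e ∈ V, pair (b (n, r)) e ∈ f := by
  have h1 : ∀ z, z ∈ F → ∃ q : ℚ, ∀ f V, z = pair f V → ∀ r, r < q → ∃ e ∈ V,
      pair (b (n, r)) e ∈ f := by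
    intro z hz
    obtain ⟨f, hf, V, hV, rfl⟩ := hF.2.2 z hz
    obtain ⟨e, he, hAe⟩ := hA f V hz
    obtain ⟨q, hq⟩ := c.near ((hC f).1 hf).2 hAe n
    refine ⟨q, fun f' V' h2 r hr => ?_⟩
    obtain ⟨rfl, rfl⟩ := ZFSet.pair_inj.1 h2
    exact ⟨e, he, hq r hr⟩
  choose! Q hQ using h1
  obtain ⟨m, hm⟩ := (hF.finite.image Q).bddBelow
  exact ⟨m, fun r hr f V hfV => hQ _ hfV f V rfl r (hr.trans_le (hm ⟨_, hfV, rfl⟩))⟩

include hCM hC in
/-- The space is completely regular for the discrete space of the real numbers. -/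
theorem Ctx.eReg : ECompletelyRegular M R δ X τ := by
  have hM := c.zf
  have hB := hM.base
  have hRM := c.RM
  have hδM := c.δM
  have hXM := c.XM
  have hfun : ∀ f ∈ C, ZFSet.IsFunc X R f := fun f hf => ((hC f).1 hf).2.1
  obtain ⟨Pw, hPw, hPw'⟩ := hM.power _ (hM.prod_mem hCM hRM)
  have hI := hM.sep_mem (Q := fun g => ∃ x ∈ X, ∀ f ∈ C, ∀ v ∈ R, (pair f v ∈ g ↔ pair x v ∈ f))
    (by
        (repeat' first
          | assumption
          | exact DfnF.proj _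
          | exact DfnF.const (by assumption)
          | apply hB.isFunc' | apply hB.isBij'
          | apply Dfn.iff | apply Dfn.not | apply Dfn.and | apply Dfn.or | apply Dfn.imp
          | apply hB.bex | apply hB.ball | apply hB.subset'
          | apply Dfn.ex | apply Dfn.all | apply Dfn.eq | apply Dfn.mem | apply hB.pair'
          | apply hB.single')) hPw
  set I := ZFSet.sep (fun g => ∃ x ∈ X, ∀ f ∈ C, ∀ v ∈ R, (pair f v ∈ g ↔ pair x v ∈ f)) Pw
    with hIdef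
  obtain ⟨h, hh, hh1, hh2⟩ := hM.rel_mem hXM hI
    (Q := fun x g => ∀ f ∈ C, ∀ v ∈ R, (pair f v ∈ g ↔ pair x v ∈ f)) (by
        (repeat' first
          | assumption
          | exact DfnF.proj _
          | exact DfnF.const (by assumption)
          | apply hB.isFunc' | apply hB.isBij'
          | apply Dfn.iff | apply Dfn.not | apply Dfn.and | apply Dfn.or | apply Dfn.imp
          | apply hB.bex | apply hB.ball | apply hB.subset'
          | apply Dfn.ex | apply Dfn.all | apply Dfn.eq | apply Dfn.mem | apply hB.pair'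
          | apply hB.single'))
  -- the image of a point
  have himg : ∀ x ∈ X, ∃ g ∈ I, ∀ f v, pair f v ∈ g ↔ f ∈ C ∧ pair x v ∈ f := by
    intro x hx
    have hxM := hM.trans _ hXM _ hx
    obtain ⟨g, hg, hg1, hg2⟩ := hM.rel_mem hCM hRM (Q := fun f v => pair x v ∈ f) (by
        (repeat' first
          | assumption
          | exact DfnF.proj _
          | exact DfnF.const (by assumption)
          | apply hB.isFunc' | apply hB.isBij'
          | apply Dfn.iff | apply Dfn.not | apply Dfn.and | apply Dfn.or | apply Dfn.imp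
          | apply hB.bex | apply hB.ball | apply hB.subset'
          | apply Dfn.ex | apply Dfn.all | apply Dfn.eq | apply Dfn.mem | apply hB.pair'
          | apply hB.single'))
    have h3 : ∀ f v, pair f v ∈ g ↔ f ∈ C ∧ pair x v ∈ f := by
      intro f v
      rw [hg2]
      constructor
      · exact fun h => ⟨h.1, h.2.2⟩
      · exact fun h => ⟨h.1, (ZFSet.pair_mem_prod.1 ((hfun f h.1).1 h.2)).2, h.2⟩
    refine ⟨g, ?_, h3⟩
    rw [hIdef, ZFSet.mem_sep, hPw']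
    refine ⟨⟨hg, hg1⟩, x, hx, fun f hf v _ => ?_⟩
    rw [h3]
    exact ⟨fun h => h.2, fun h => ⟨hf, h⟩⟩
  have hsub : ∀ g ∈ I, g ⊆ ZFSet.prod C R := by
    intro g hg
    rw [hIdef, ZFSet.mem_sep, hPw'] at hg
    exact hg.1.2
  have hIx : ∀ g ∈ I, ∃ x ∈ X, ∀ f v, pair f v ∈ g ↔ f ∈ C ∧ pair x v ∈ f := by
    intro g hg
    have hg1 := hsub g hg
    rw [hIdef, ZFSet.mem_sep, hPw'] at hg
    obtain ⟨-, x, hx, h3⟩ := hg
    refine ⟨x, hx, fun f v => ?_⟩
    constructor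
    · intro h4
      obtain ⟨h5, h6⟩ := ZFSet.pair_mem_prod.1 (hg1 h4)
      exact ⟨h5, (h3 f h5 v h6).1 h4⟩
    · rintro ⟨h4, h5⟩
      exact (h3 f h4 v (ZFSet.pair_mem_prod.1 ((hfun f h4).1 h5)).2).2 h5
  have hhg : ∀ x g, pair x g ∈ h → x ∈ X ∧ g ∈ I ∧ ∀ f v, pair f v ∈ g ↔ f ∈ C ∧ pair x v ∈ f := by
    intro x g hxg
    obtain ⟨hx, hg, h3⟩ := (hh2 x g).1 hxg
    refine ⟨hx, hg, fun f v => ?_⟩
    constructor
    · intro h4
      obtain ⟨h5, h6⟩ := ZFSet.pair_mem_prod.1 (hsub g hg h4)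
      exact ⟨h5, (h3 f h5 v h6).1 h4⟩
    · rintro ⟨h4, h5⟩
      exact (h3 f h4 v (ZFSet.pair_mem_prod.1 ((hfun f h4).1 h5)).2).2 h5
  have hext : ∀ g ∈ I, ∀ g' ∈ I, (∀ f v, pair f v ∈ g ↔ pair f v ∈ g') → g = g' := by
    intro g hg g' hg' h3
    ext z
    constructor
    · intro hz
      obtain ⟨f, -, v, -, rfl⟩ := ZFSet.mem_prod.1 (hsub g hg hz)
      exact (h3 f v).1 hz
    · intro hz
      obtain ⟨f, -, v, -, rfl⟩ := ZFSet.mem_prod.1 (hsub g' hg' hz)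
      exact (h3 f v).2 hz
  have hne : C ≠ ∅ := by
    obtain ⟨U, hU, hU', -, -⟩ := c.exists_cone 0
    obtain ⟨f, hf, -⟩ := c.exists_chi' hC hU hU'
    intro h1
    rw [h1] at hf
    exact ZFSet.notMem_empty _ hf
  refine ⟨C, hCM, hne, I, hI, h, hh, ⟨fun g hg => ⟨hsub g hg, fun f hf => ?_⟩,
    ⟨⟨⟨hh1, fun x hx => ?_⟩, ?_⟩, ?_⟩, fun U hU hUX => ?_⟩⟩
  · obtain ⟨x, hx, hg'⟩ := hIx g hg
    obtain ⟨v, -, hv, hu⟩ := fun_val (hfun f hf) hx
    exact ⟨v, (hg' f v).2 ⟨hf, hv⟩, fun w hw => hu w ((hg' f w).1 hw).2⟩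
  · obtain ⟨g, hg, hg'⟩ := himg x hx
    refine ⟨g, (hh2 _ _).2 ⟨hx, hg, fun f hf v _ => ?_⟩, fun g' hxg' => ?_⟩
    · rw [hg']
      exact ⟨fun h => h.2, fun h => ⟨hf, h⟩⟩
    · obtain ⟨-, hg'I, h3⟩ := hhg x g' hxg'
      exact hext g' hg'I g hg fun f v => (h3 f v).trans (hg' f v).symm
  · intro x y g hxg hyg
    by_contra hxy
    obtain ⟨hx, hg, h3⟩ := hhg x g hxg
    obtain ⟨hy, -, h4⟩ := hhg y g hyg
    -- a clopen set that contains exactly one of the points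
    have key : ∀ x y, x ∈ X → y ∈ X → x ≠ y → y ≠ A → (∀ f v, f ∈ C → (pair x v ∈ f ↔
        pair y v ∈ f)) → False := by
      intro x y hx hy hxy hyA h5
      obtain ⟨i, rfl⟩ := (c.cases hy).resolve_left hyA
      have hyU : ({b i} : ZFSet.{0}) ∈ τ := c.isol (hM.single_mem (c.pp.b_mem i))
        (fun z hz => (ZFSet.mem_singleton.1 hz) ▸ hy)
        (fun h6 => A_ne c.pp i (ZFSet.mem_singleton.1 h6))
      obtain ⟨V, hV, hV', h6, h7⟩ := c.exists_clopen hyU (ZFSet.mem_singleton.2 rfl)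
      obtain ⟨f, hf, hchi⟩ := c.exists_chi' hC hV hV'
      have h8 := (hchi _ hy _).2 (Or.inl ⟨h6, rfl⟩)
      rw [← h5 f _ hf] at h8
      rcases (hchi _ hx _).1 h8 with h9 | h9
      · exact hxy (ZFSet.mem_singleton.1 (h7 h9.1))
      · exact cut01 h9.2.symm
    have h5 : ∀ f v, f ∈ C → (pair x v ∈ f ↔ pair y v ∈ f) := by
      intro f v hf
      have h6 := (h3 f v).symm.trans (h4 f v)
      constructor
      · intro h7
        exact (h6.1 ⟨hf, h7⟩).2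
      · intro h7
        exact (h6.2 ⟨hf, h7⟩).2
    by_cases hyA : y = A
    · refine key y x hy hx (Ne.symm hxy) (fun h6 => hxy (h6.trans hyA.symm)) fun f v hf =>
        (h5 f v hf).symm
    · exact key x y hx hy hxy hyA h5
  · intro g hg
    obtain ⟨x, hx, hg'⟩ := hIx g hg
    refine ⟨x, hx, (hh2 _ _).2 ⟨hx, hg, fun f hf v _ => ?_⟩⟩
    rw [hg']
    exact ⟨fun h => h.2, fun h => ⟨hf, h⟩⟩
  · constructor
    · intro hUτ x hx g hxg
      obtain ⟨hxX, hg, h3⟩ := hhg x g hxg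
      obtain ⟨V, hV, hV', h4, h5⟩ := c.exists_clopen hUτ hx
      obtain ⟨f, hf, hchi⟩ := c.exists_chi' hC hV hV'
      refine ⟨{pair f {cut 1}}, single_box hM hCM hδM hf (c.single_δ c.cut1R), ?_, ?_⟩
      · rw [inBox_single]
        exact ⟨cut 1, ZFSet.mem_singleton.2 rfl, (h3 _ _).2 ⟨hf, (hchi x hxX _).2
          (Or.inl ⟨h4, rfl⟩)⟩⟩
      · intro y hy g' hyg' hbox
        obtain ⟨-, -, h6⟩ := hhg y g' hyg'
        rw [inBox_single] at hbox
        obtain ⟨e, he, he'⟩ := hbox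
        rw [ZFSet.mem_singleton.1 he] at he'
        rcases (hchi y hy _).1 ((h6 _ _).1 he').2 with h7 | h7
        · exact h5 h7.1
        · exact absurd h7.2.symm cut01
    · intro h1
      refine (c.top U).2 ⟨hU, hUX, fun hAU n => ?_⟩
      obtain ⟨g, hg, hg'⟩ := himg A c.AX
      have hAg : pair A g ∈ h := (hh2 _ _).2 ⟨c.AX, hg, fun f hf v _ => by
        rw [hg']
        exact ⟨fun h => h.2, fun h => ⟨hf, h⟩⟩⟩
      obtain ⟨F, hF, hFg, h2⟩ := h1 A hAU g hAg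
      obtain ⟨q, hq⟩ := c.near_box hC hF (fun f V hfV => by
        obtain ⟨e, he, he'⟩ := hFg f V hfV
        exact ⟨e, he, ((hg' _ _).1 he').2⟩) n
      refine ⟨q, fun r hr => ?_⟩
      obtain ⟨g', hg'I, hg''⟩ := himg (b (n, r)) (c.bX _)
      refine h2 _ (c.bX _) g' ((hh2 _ _).2 ⟨c.bX _, hg'I, fun f hf v _ => ?_⟩) fun f V hfV => ?_
      · rw [hg'']
        exact ⟨fun h => h.2, fun h => ⟨hf, h⟩⟩
      · obtain ⟨e, he, he'⟩ := hq r hr f V hfV
        obtain ⟨f', hf', V', hV', h3⟩ := hF.2.2 _ hfV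
        obtain ⟨rfl, rfl⟩ := ZFSet.pair_inj.1 h3
        exact ⟨e, he, (hg'' _ _).2 ⟨hf', he'⟩⟩

end

end Pool.Agent.R602.HE
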