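import Pool.Agent.R602.HE.Ev

/-!
# Hewitt extensions exist in models of ZF
-/

set_option autoImplicit false
set_option linter.unusedTactic false
set_option linter.unreachableTactic false

namespace Pool.Agent.R602.HE

open Pool.Agent.W868
open Pool.Agent.R598.PM (IsTop FinIn)
open ZFSet (pair)

section

variable {M : Set ZFSet.{0}} (hM : IsZF M)

include hM

theorem finIn_union {F F' : ZFSet.{0}} (h : FinIn M F) (h' : FinIn M F') (hF' : F' ∈ M) :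
    FinIn M (F ∪ F') := by
  have key : ∀ s : Set ZFSet.{0}, s.Finite → s ⊆ M → ∀ Y : ZFSet.{0},
      (∀ z, z ∈ Y ↔ z ∈ F ∨ z ∈ s) → FinIn M Y := by
    intro s hs
    refine Set.Finite.induction_on s hs ?_ ?_
    · intro _ Y hY
      have h1 : Y = F := by
        ext z
        rw [hY]
        constructor
        · rintro (h | h)
          · exact h
          · exact absurd h (Set.notMem_empty _)
        · exact Or.inl
      rwa [h1]
    · intro a s _ _ ih hsM Y hY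
      have h1 : ∀ z, z ∈ ZFSet.sep (fun z => z ∈ F ∨ z ∈ s) Y ↔ z ∈ F ∨ z ∈ s := by
        intro z
        rw [ZFSet.mem_sep, hY]
        constructor
        · exact fun h => h.2
        · rintro (h | h)
          · exact ⟨Or.inl h, Or.inl h⟩
          · exact ⟨Or.inr (Set.mem_insert_of_mem _ h), Or.inr h⟩
      have h2 := ih (fun z hz => hsM (Set.mem_insert_of_mem _ hz)) _ h1
      have h3 := CO.finIn_insert hM (hsM (Set.mem_insert a s)) h2
      have h4 : insert a (ZFSet.sep (fun z => z ∈ F ∨ z ∈ s) Y) = Y := by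
        ext z
        rw [ZFSet.mem_insert_iff, h1, hY, Set.mem_insert_iff]
        tauto
      rwa [h4] at h3
  refine key {z | z ∈ F'} (CO.FinIn.finite h') (fun z hz => hM.trans _ hF' _ hz) _ fun z => ?_
  rw [ZFSet.mem_union, Set.mem_ofPred_eq]

theorem exists_boxes {σ J : ZFSet.{0}} (hσ : σ ∈ M) (hJ : J ∈ M) :
    ∃ Bx ∈ M, ∀ F, F ∈ Bx ↔ IsBox M σ J F := by
  have hB := hM.base
  have hom := hM.infinity
  obtain ⟨Pw, hPw, hPw'⟩ := hM.power _ (hM.prod_mem hJ hσ)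
  have h1 := hM.sep_mem (Q := fun F => ∃ n ∈ ZFSet.omega, ∃ f ∈ M, IsBij F n f) (by
      (repeat' first
        | assumption
        | exact DfnF.proj _
        | exact DfnF.const (by assumption)
        | apply hB.isFunc' | apply hB.isBij'
        | apply Dfn.iff | apply Dfn.not | apply Dfn.and | apply Dfn.or | apply Dfn.imp
        | apply hB.bex | apply hB.ball | apply hB.subset'
        | apply Dfn.ex | apply Dfn.all | apply Dfn.eq | apply Dfn.mem | apply hB.pair'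
        | apply hB.single')) hPw
  refine ⟨_, h1, fun F => ?_⟩
  rw [ZFSet.mem_sep, hPw']
  constructor
  · rintro ⟨⟨h2, h3⟩, n, hn, f, hf, h4⟩
    obtain ⟨n, rfl⟩ := mem_omega_iff.1 hn
    exact ⟨h2, ⟨n, f, hf, h4⟩, fun p hp => ZFSet.mem_prod.1 (h3 hp)⟩
  · rintro ⟨h2, ⟨n, f, hf, h4⟩, h3⟩
    exact ⟨⟨h2, fun p hp => ZFSet.mem_prod.2 (h3 p hp)⟩, nat n, mem_omega_iff.2 ⟨n, rfl⟩, f, hf, h4⟩

theorem IsBox.union {σ J F F' : ZFSet.{0}} (h : IsBox M σ J F) (h' : IsBox M σ J F') :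
    IsBox M σ J (F ∪ F') := by
  refine ⟨hM.union_mem h.1 h'.1, finIn_union hM h.2.1 h'.2.1 h'.1, fun p hp => ?_⟩
  rcases ZFSet.mem_union.1 hp with h1 | h1
  · exact h.2.2 p h1
  · exact h'.2.2 p h1

omit hM in
theorem inBox_union {F F' g : ZFSet.{0}} : InBox (F ∪ F') g ↔ InBox F g ∧ InBox F' g := by
  constructor
  · exact fun h => ⟨fun j V h1 => h j V (ZFSet.mem_union.2 (Or.inl h1)), fun j V h1 =>
      h j V (ZFSet.mem_union.2 (Or.inr h1))⟩
  · rintro ⟨h, h'⟩ j V h1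
    rcases ZFSet.mem_union.1 h1 with h2 | h2
    · exact h j V h2
    · exact h' j V h2

/-- The Hewitt extension exists. -/
theorem exists_hewitt {E σ X τ C : ZFSet.{0}} (hE : E ∈ M) (hσ : σ ∈ M) (hX : X ∈ M)
    (hC : C ∈ M) (hC' : ∀ f, f ∈ C ↔ f ∈ M ∧ IsContMap X τ E σ f) :
    ∃ H ∈ M, ∃ η ∈ M, IsHewitt M E σ X τ C H η := by
  have hB := hM.base
  obtain ⟨Bx, hBx, hBx'⟩ := exists_boxes hM hσ hC
  obtain ⟨Pw, hPw, hPw'⟩ := hM.power _ (hM.prod_mem hC hE)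
  have hH := hM.sep_mem (Q := fun g => ZFSet.IsFunc C E g ∧ ∀ F ∈ Bx,
    (∀ j ∈ C, ∀ V ∈ σ, pair j V ∈ F → ∃ e ∈ V, pair j e ∈ g) →
      ∃ x ∈ X, ∀ j ∈ C, ∀ V ∈ σ, pair j V ∈ F → ∃ e ∈ V, pair x e ∈ j) (by
          (repeat' first
            | assumption
            | exact DfnF.proj _
            | exact DfnF.const (by assumption)
            | apply hB.isFunc' | apply hB.isBij'
            | apply Dfn.iff | apply Dfn.not | apply Dfn.and | apply Dfn.or | apply Dfn.imp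
            | apply hB.bex | apply hB.ball | apply hB.subset'
            | apply Dfn.ex | apply Dfn.all | apply Dfn.eq | apply Dfn.mem | apply hB.pair'
            | apply hB.single')) hPw
  set H := ZFSet.sep (fun g => ZFSet.IsFunc C E g ∧ ∀ F ∈ Bx,
    (∀ j ∈ C, ∀ V ∈ σ, pair j V ∈ F → ∃ e ∈ V, pair j e ∈ g) →
      ∃ x ∈ X, ∀ j ∈ C, ∀ V ∈ σ, pair j V ∈ F → ∃ e ∈ V, pair x e ∈ j) Pw with hHdef
  have hbox : ∀ F, IsBox M σ C F → ∀ T : ZFSet.{0} → ZFSet.{0} → Prop,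
      (∀ j ∈ C, ∀ V ∈ σ, pair j V ∈ F → T j V) ↔ ∀ j V, pair j V ∈ F → T j V := by
    intro F hF T
    constructor
    · intro h j V hjV
      obtain ⟨j', hj', V', hV', h1⟩ := hF.2.2 _ hjV
      obtain ⟨rfl, rfl⟩ := ZFSet.pair_inj.1 h1
      exact h j hj' V hV' hjV
    · exact fun h j _ V _ hjV => h j V hjV
  have hH' : ∀ g, g ∈ H ↔ g ∈ M ∧ ZFSet.IsFunc C E g ∧ ∀ F, IsBox M σ C F → InBox F g →
      ∃ x ∈ X, ∀ f V, pair f V ∈ F → ∃ e ∈ V, pair x e ∈ f := by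
    intro g
    rw [hHdef, ZFSet.mem_sep, hPw']
    constructor
    · rintro ⟨⟨h1, -⟩, h2, h3⟩
      refine ⟨h1, h2, fun F hF hFg => ?_⟩
      obtain ⟨x, hx, h4⟩ := h3 F ((hBx' F).2 hF) ((hbox F hF fun j V => ∃ e ∈ V, pair j e ∈ g).2 hFg)
      exact ⟨x, hx, (hbox F hF fun j V => ∃ e ∈ V, pair x e ∈ j).1 h4⟩
    · rintro ⟨h1, h2, h3⟩
      refine ⟨⟨h1, h2.1⟩, h2, fun F hF hFg => ?_⟩
      have hF' := (hBx' F).1 hF
      obtain ⟨x, hx, h4⟩ := h3 F hF' ((hbox F hF' fun j V => ∃ e ∈ V, pair j e ∈ g).1 hFg)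
      exact ⟨x, hx, (hbox F hF' fun j V => ∃ e ∈ V, pair x e ∈ j).2 h4⟩
  obtain ⟨Pη, hPη, hPη'⟩ := hM.power _ hH
  have hη := hM.sep_mem (Q := fun U => ∀ g ∈ U, ∃ F ∈ Bx,
    (∀ j ∈ C, ∀ V ∈ σ, pair j V ∈ F → ∃ e ∈ V, pair j e ∈ g) ∧
      ∀ g' ∈ H, (∀ j ∈ C, ∀ V ∈ σ, pair j V ∈ F → ∃ e ∈ V, pair j e ∈ g') → g' ∈ U) (by
          (repeat' first
            | assumption
            | exact DfnF.proj _
            | exact DfnF.const (by assumption)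
            | apply hB.isFunc' | apply hB.isBij'
            | apply Dfn.iff | apply Dfn.not | apply Dfn.and | apply Dfn.or | apply Dfn.imp
            | apply hB.bex | apply hB.ball | apply hB.subset'
            | apply Dfn.ex | apply Dfn.all | apply Dfn.eq | apply Dfn.mem | apply hB.pair'
            | apply hB.single')) hPη
  refine ⟨H, hH, _, hη, hC', hH', fun U => ?_⟩
  rw [ZFSet.mem_sep, hPη']
  constructor
  · rintro ⟨⟨h1, h2⟩, h3⟩
    refine ⟨h1, h2, fun g hg => ?_⟩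
    obtain ⟨F, hF, h4, h5⟩ := h3 g hg
    have hF' := (hBx' F).1 hF
    exact ⟨F, hF', (hbox F hF' fun j V => ∃ e ∈ V, pair j e ∈ g).1 h4, fun g' hg' h6 =>
      h5 g' hg' ((hbox F hF' fun j V => ∃ e ∈ V, pair j e ∈ g').2 h6)⟩
  · rintro ⟨h1, h2, h3⟩
    refine ⟨⟨h1, h2⟩, fun g hg => ?_⟩
    obtain ⟨F, hF, h4, h5⟩ := h3 g hg
    exact ⟨F, (hBx' F).2 hF, (hbox F hF fun j V => ∃ e ∈ V, pair j e ∈ g).2 h4, fun g' hg' h6 =>
      h5 g' hg' ((hbox F hF fun j V => ∃ e ∈ V, pair j e ∈ g').1 h6)⟩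

/-- The subspace topology is a topology. -/
theorem IsHewitt.isTop {E σ X τ C H η : ZFSet.{0}} (hH : H ∈ M)
    (h : IsHewitt M E σ X τ C H η) : IsTop M H η := by
  have hemp : IsBox M σ C ∅ := ⟨hM.empty_mem, CO.finIn_empty hM, fun p hp =>
    absurd hp (ZFSet.notMem_empty _)⟩
  refine ⟨fun O hO => ((h.top O).1 hO).2.1, (h.top _).2 ⟨hM.empty_mem, fun z hz =>
    absurd hz (ZFSet.notMem_empty _), fun z hz => absurd hz (ZFSet.notMem_empty _)⟩,
    (h.top _).2 ⟨hH, fun z hz => hz, fun g _ => ⟨∅, hemp, fun j V h1 =>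
      absurd h1 (ZFSet.notMem_empty _), fun g' hg' _ => hg'⟩⟩, fun U hU V hV => ?_,
    fun D hD hDη => ?_⟩
  · obtain ⟨h1, h2, h3⟩ := (h.top U).1 hU
    obtain ⟨h4, h5, h6⟩ := (h.top V).1 hV
    refine (h.top _).2 ⟨inter_mem hM h1 h4, fun z hz => h2 (ZFSet.mem_inter.1 hz).1,
      fun g hg => ?_⟩
    obtain ⟨F, hF, h7, h8⟩ := h3 g (ZFSet.mem_inter.1 hg).1
    obtain ⟨F', hF', h9, h10⟩ := h6 g (ZFSet.mem_inter.1 hg).2
    refine ⟨F ∪ F', IsBox.union hM hF hF', inBox_union.2 ⟨h7, h9⟩, fun g' hg' h11 => ?_⟩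
    obtain ⟨h12, h13⟩ := inBox_union.1 h11
    exact ZFSet.mem_inter.2 ⟨h8 g' hg' h12, h10 g' hg' h13⟩
  · refine (h.top _).2 ⟨hM.union _ hD, fun z hz => ?_, fun g hg => ?_⟩
    · obtain ⟨U, hU, hzU⟩ := ZFSet.mem_sUnion.1 hz
      exact ((h.top U).1 (hDη hU)).2.1 hzU
    · obtain ⟨U, hU, hgU⟩ := ZFSet.mem_sUnion.1 hg
      obtain ⟨F, hF, h7, h8⟩ := ((h.top U).1 (hDη hU)).2.2 g hgU
      exact ⟨F, hF, h7, fun g' hg' h9 => ZFSet.mem_sUnion.2 ⟨U, hU, h8 g' hg' h9⟩⟩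

end

end Pool.Agent.R602.HE
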