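import Pool.Agent.R602.HE.Disc
import Pool.Agent.R602.PP.Space
import Pool.Agent.R602.PP.Model2

/-!
# Continuous functions on the space
-/

set_option autoImplicit false
set_option linter.unusedTactic false
set_option linter.unreachableTactic false

namespace Pool.Agent.R602.HE

open Pool.Agent.W868 Pool.Agent.R602.PP
open Pool.Agent.R602.CO (cut code ltQ cut_inj mem_cut code_mem_cut code_inj exists_code
  code_mem_omega pair_mem_ltQ)
open Pool.Agent.R598.PM (IsTop FinIn)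
open ZFSet (pair)

/-- The data. -/
structure Ctx (M : Set ZFSet.{0}) (b : ℕ × ℚ → ZFSet.{0}) (A K L R δ X τ : ZFSet.{0}) : Prop where
  pp : IsPP M b A K L
  lt : ltQ ∈ M
  RM : R ∈ M
  δM : δ ∈ M
  real : IsRealDisc M R δ
  X_eq : X = insert A A
  τM : τ ∈ M
  top : ∀ U, U ∈ τ ↔ U ∈ M ∧ U ⊆ X ∧ (A ∈ U → ∀ n : ℕ, ∃ q : ℚ, ∀ r, r < q → b (n, r) ∈ U)
  psp : IsPSpace M X τ

/-- The existence of the data. -/
theorem exists_ctx : ∃ M : Set ZFSet.{0}, M.Countable ∧ ∃ b A K L R δ X τ,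
    Ctx M b A K L R δ X τ := by
  obtain ⟨M, hMc, hlt, b, A, K, L, h⟩ := exists_model2
  have hM := h.zf
  obtain ⟨R, hR, hR'⟩ := CO.reals_mem hM hlt
  obtain ⟨δ, hδ, hδ'⟩ := hM.power _ hR
  obtain ⟨τ, hτ, hτ', hP1⟩ := exists_top h h.L_mem (isL_true h)
  refine ⟨M, hMc, b, A, K, L, R, δ, insert A A, τ, h, hlt, hR, hδ, ⟨hR', hδ'⟩, rfl, hτ, ?_, hP1⟩
  intro U
  rw [hτ']
  refine and_congr_right fun _ => and_congr_right fun _ => imp_congr_right fun _ => ?_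
  constructor
  · intro h1 n
    obtain ⟨q, hq, h2, h3⟩ := h1 (nat n) (mem_omega_iff.2 ⟨n, rfl⟩)
    obtain ⟨⟨m, q⟩, rfl⟩ := (h.mem_A _).1 hq
    have h4 : m = n := (pair_K h).1 h2
    subst h4
    exact ⟨q, fun r hr => h3 _ ((h.mem_A _).2 ⟨_, rfl⟩)
      ((isL_true h _ _).2 ⟨rfl, ltS_true.2 hr⟩)⟩
  · intro h1 n hn
    obtain ⟨n, rfl⟩ := mem_omega_iff.1 hn
    obtain ⟨q, hq⟩ := h1 n
    refine ⟨b (n, q), (h.mem_A _).2 ⟨_, rfl⟩, (pair_K h).2 rfl, fun a ha haq => ?_⟩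
    obtain ⟨⟨m, r⟩, rfl⟩ := (h.mem_A _).1 ha
    obtain ⟨h2, h3⟩ := (isL_true h _ _).1 haq
    have h4 : m = n := h2
    subst h4
    exact hq r (ltS_true.1 h3)

section

variable {M : Set ZFSet.{0}} {b : ℕ × ℚ → ZFSet.{0}} {A K L R δ X τ : ZFSet.{0}}
  (c : Ctx M b A K L R δ X τ)

include c

theorem Ctx.zf : IsZF M := c.pp.zf

theorem Ctx.XM : X ∈ M := by
  rw [c.X_eq]
  exact c.zf.insert_mem c.pp.A_mem c.pp.A_mem

theorem Ctx.AX : A ∈ X := by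
  rw [c.X_eq]
  exact ZFSet.mem_insert_iff.2 (Or.inl rfl)

theorem Ctx.bX (i : ℕ × ℚ) : b i ∈ X := by
  rw [c.X_eq]
  exact ZFSet.mem_insert_iff.2 (Or.inr ((c.pp.mem_A _).2 ⟨i, rfl⟩))

theorem Ctx.cases {x : ZFSet.{0}} (hx : x ∈ X) : x = A ∨ ∃ i, x = b i := by
  rw [c.X_eq] at hx
  rcases ZFSet.mem_insert_iff.1 hx with h1 | h1
  · exact Or.inl h1
  · exact Or.inr ((c.pp.mem_A _).1 h1)

theorem Ctx.Xτ : X ∈ τ :=
  (c.top X).2 ⟨c.XM, fun _ h => h, fun _ _ => ⟨0, fun _ _ => c.bX _⟩⟩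

theorem Ctx.emp : ∅ ∈ τ := (c.top ∅).2 ⟨c.zf.empty_mem, fun _ h => absurd h (ZFSet.notMem_empty _),
  fun h => absurd h (ZFSet.notMem_empty _)⟩

theorem Ctx.isol {U : ZFSet.{0}} (hU : U ∈ M) (hUX : U ⊆ X) (hA : A ∉ U) : U ∈ τ :=
  (c.top U).2 ⟨hU, hUX, fun h => absurd h hA⟩

omit c in
theorem fun_val {f x : ZFSet.{0}} (hf : ZFSet.IsFunc X R f) (hx : x ∈ X) :
    ∃ v ∈ R, pair x v ∈ f ∧ ∀ w, pair x w ∈ f → w = v := by
  obtain ⟨v, hv, hu⟩ := hf.2 x hx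
  exact ⟨v, (ZFSet.pair_mem_prod.1 (hf.1 hv)).2, hv, hu⟩

omit c in
theorem fun_uniq {f x v w Y : ZFSet.{0}} (hf : ZFSet.IsFunc Y R f) (h1 : pair x v ∈ f)
    (h2 : pair x w ∈ f) : v = w := by
  obtain ⟨u, -, hu⟩ := hf.2 x (ZFSet.pair_mem_prod.1 (hf.1 h1)).1
  rw [hu v h1, hu w h2]

/-- The characteristic functions of clopen sets are continuous. -/
theorem Ctx.chi_cont {U f : ZFSet.{0}} (hU : U ∈ τ) (hU' : X \ U ∈ τ)
    (hf : ZFSet.IsFunc X R f) (hchi : IsChi X U f) : IsContMap X τ R δ f := by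
  refine ⟨hf, fun V _ => ?_⟩
  have hUX := ((c.top U).1 hU).2.1
  have key : ∀ x ∈ X, (∃ e ∈ V, pair x e ∈ f) ↔ (x ∈ U ∧ cut 1 ∈ V) ∨ (x ∉ U ∧ cut 0 ∈ V) := by
    intro x hx
    constructor
    · rintro ⟨e, he, h1⟩
      rcases (hchi x hx e).1 h1 with ⟨h2, rfl⟩ | ⟨h2, rfl⟩
      · exact Or.inl ⟨h2, he⟩
      · exact Or.inr ⟨h2, he⟩
    · rintro (⟨h1, h2⟩ | ⟨h1, h2⟩)
      · exact ⟨_, h2, (hchi x hx _).2 (Or.inl ⟨h1, rfl⟩)⟩
      · exact ⟨_, h2, (hchi x hx _).2 (Or.inr ⟨h1, rfl⟩)⟩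
  by_cases h1 : cut 1 ∈ V <;> by_cases h0 : cut 0 ∈ V
  · have h2 : ZFSet.sep (fun x => ∃ e ∈ V, pair x e ∈ f) X = X := by
      ext x
      rw [ZFSet.mem_sep]
      refine ⟨fun h => h.1, fun h => ⟨h, (key x h).2 ?_⟩⟩
      by_cases hx : x ∈ U
      · exact Or.inl ⟨hx, h1⟩
      · exact Or.inr ⟨hx, h0⟩
    rw [h2]
    exact c.Xτ
  · have h2 : ZFSet.sep (fun x => ∃ e ∈ V, pair x e ∈ f) X = U := by
      ext x
      rw [ZFSet.mem_sep]
      constructor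
      · rintro ⟨hx, h3⟩
        rcases (key x hx).1 h3 with h4 | h4
        · exact h4.1
        · exact absurd h4.2 h0
      · exact fun h => ⟨hUX h, (key x (hUX h)).2 (Or.inl ⟨h, h1⟩)⟩
    rw [h2]
    exact hU
  · have h2 : ZFSet.sep (fun x => ∃ e ∈ V, pair x e ∈ f) X = X \ U := by
      ext x
      rw [ZFSet.mem_sep, ZFSet.mem_sdiff]
      constructor
      · rintro ⟨hx, h3⟩
        rcases (key x hx).1 h3 with h4 | h4
        · exact absurd h4.2 h1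
        · exact ⟨hx, h4.1⟩
      · exact fun h => ⟨h.1, (key x h.1).2 (Or.inr ⟨h.2, h0⟩)⟩
    rw [h2]
    exact hU'
  · have h2 : ZFSet.sep (fun x => ∃ e ∈ V, pair x e ∈ f) X = ∅ := by
      rw [ZFSet.eq_empty]
      intro x hx
      obtain ⟨hx, h3⟩ := ZFSet.mem_sep.1 hx
      rcases (key x hx).1 h3 with h4 | h4
      · exact h1 h4.2
      · exact h0 h4.2
    rw [h2]
    exact c.emp

/-- Clopen neighbourhoods. -/
theorem Ctx.exists_clopen {x U : ZFSet.{0}} (hU : U ∈ τ) (hx : x ∈ U) :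
    ∃ V ∈ τ, X \ V ∈ τ ∧ x ∈ V ∧ V ⊆ U := by
  obtain ⟨hUM, hUX, -⟩ := (c.top U).1 hU
  rcases c.cases (hUX hx) with rfl | ⟨i, rfl⟩
  · exact ⟨U, hU, c.isol (sdiff_mem c.zf c.XM hUM) (fun z hz => (ZFSet.mem_sdiff.1 hz).1)
      (fun h => (ZFSet.mem_sdiff.1 h).2 hx), hx, fun _ h => h⟩
  · have hsM : ({b i} : ZFSet.{0}) ∈ M := c.zf.single_mem (c.pp.b_mem i)
    refine ⟨{b i}, c.isol hsM (fun z hz => ?_) (fun h => ?_), ?_, ZFSet.mem_singleton.2 rfl,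
      fun z hz => ?_⟩
    · rw [ZFSet.mem_singleton.1 hz]
      exact c.bX i
    · exact A_ne c.pp i (ZFSet.mem_singleton.1 h)
    · refine (c.top _).2 ⟨sdiff_mem c.zf c.XM hsM, fun z hz => (ZFSet.mem_sdiff.1 hz).1,
        fun _ n => ⟨i.2, fun r hr => ZFSet.mem_sdiff.2 ⟨c.bX _, fun h => ?_⟩⟩⟩
      have h1 := c.pp.b_inj _ _ (ZFSet.mem_singleton.1 h)
      rw [← h1] at hr
      exact lt_irrefl _ hr
    · rw [ZFSet.mem_singleton.1 hz]
      exact hx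

/-- The set of the continuous maps. -/
theorem Ctx.exists_C : ∃ C ∈ M, ∀ f, f ∈ C ↔ f ∈ M ∧ IsContMap X τ R δ f := by
  have hM := c.zf
  have hB := hM.base
  have hRM := c.RM
  have hδM := c.δM
  have hXM := c.XM
  have hτM := c.τM
  obtain ⟨Pw, hPw, hPw'⟩ := hM.power _ (hM.prod_mem hXM hRM)
  have h1 := hM.sep_mem (Q := fun f => ZFSet.IsFunc X R f ∧ ∀ V ∈ δ, ∃ U ∈ τ, ∀ x ∈ X,
    (x ∈ U ↔ ∃ e ∈ V, pair x e ∈ f)) (by
        (repeat' first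
          | assumption
          | exact DfnF.proj _
          | exact DfnF.const (by assumption)
          | apply hB.isFunc' | apply hB.isBij'
          | apply Dfn.iff | apply Dfn.not | apply Dfn.and | apply Dfn.or | apply Dfn.imp
          | apply hB.bex | apply hB.ball | apply hB.subset'
          | apply Dfn.ex | apply Dfn.all | apply Dfn.eq | apply Dfn.mem | apply hB.pair'
          | apply hB.single')) hPw
  refine ⟨_, h1, fun f => ?_⟩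
  rw [ZFSet.mem_sep, hPw']
  constructor
  · rintro ⟨⟨h2, -⟩, h3, h4⟩
    refine ⟨h2, h3, fun V hV => ?_⟩
    obtain ⟨U, hU, h5⟩ := h4 V hV
    have h6 : ZFSet.sep (fun x => ∃ e ∈ V, pair x e ∈ f) X = U := by
      ext x
      rw [ZFSet.mem_sep]
      constructor
      · rintro ⟨hx, h6⟩
        exact (h5 x hx).2 h6
      · intro hx
        have hxX := ((c.top U).1 hU).2.1 hx
        exact ⟨hxX, (h5 x hxX).1 hx⟩
    rw [h6]
    exact hU
  · rintro ⟨h2, h3, h4⟩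
    refine ⟨⟨h2, h3.1⟩, h3, fun V hV => ⟨_, h4 V hV, fun x hx => ?_⟩⟩
    rw [ZFSet.mem_sep]
    exact ⟨fun h => h.2, fun h => ⟨hx, h⟩⟩

/-- Continuity at the point `A`. -/
theorem Ctx.near {f v : ZFSet.{0}} (hf : IsContMap X τ R δ f) (hv : pair A v ∈ f) (n : ℕ) :
    ∃ q : ℚ, ∀ r, r < q → pair (b (n, r)) v ∈ f := by
  have hvR := (ZFSet.pair_mem_prod.1 (hf.1.1 hv)).2
  have h1 := hf.2 {v} ((c.real.2 _).2 ⟨c.zf.single_mem (c.zf.trans _ c.RM _ hvR), fun z hz =>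
    (ZFSet.mem_singleton.1 hz) ▸ hvR⟩)
  obtain ⟨q, hq⟩ := ((c.top _).1 h1).2.2 (ZFSet.mem_sep.2 ⟨c.AX, v, ZFSet.mem_singleton.2 rfl, hv⟩) n
  refine ⟨q, fun r hr => ?_⟩
  obtain ⟨-, e, he, h2⟩ := ZFSet.mem_sep.1 (hq r hr)
  rwa [ZFSet.mem_singleton.1 he] at h2

/-- The support of a function with real values. -/
theorem Ctx.supp_fun {f : ZFSet.{0}} (hfM : f ∈ M) (hf : ZFSet.IsFunc X R f) :
    ∃ E : Finset (ℕ × ℚ), ∀ τ' ∈ Tg, (∀ i ∈ E, τ' i = i) → ∀ i v, pair (b i) v ∈ f →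
      pair (b (τ' i)) v ∈ f := by
  have hM := c.zf
  have hB := hM.base
  have hRM := c.RM
  have hAM := c.pp.A_mem
  obtain ⟨S, hS, -, hS'⟩ := hM.rel_mem hM.infinity hAM
    (Q := fun k a => ∃ v ∈ R, pair a v ∈ f ∧ k ∈ v) (by
        (repeat' first
          | assumption
          | exact DfnF.proj _
          | exact DfnF.const (by assumption)
          | apply hB.isFunc' | apply hB.isBij'
          | apply Dfn.iff | apply Dfn.not | apply Dfn.and | apply Dfn.or | apply Dfn.imp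
          | apply hB.bex | apply hB.ball | apply hB.subset'
          | apply Dfn.ex | apply Dfn.all | apply Dfn.eq | apply Dfn.mem | apply hB.pair'
          | apply hB.single'))
  obtain ⟨E, hE⟩ := c.pp.supp' S hS
  have hmem : ∀ (k : ℕ) i v, pair (b i) v ∈ f → (pair (nat k) (b i) ∈ S ↔ nat k ∈ v) := by
    intro k i v hv
    rw [hS']
    constructor
    · rintro ⟨-, -, w, hw, h1, h2⟩
      rwa [fun_uniq hf hv h1]
    · intro h1
      exact ⟨mem_omega_iff.2 ⟨k, rfl⟩, (c.pp.mem_A _).2 ⟨i, rfl⟩, v,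
        (ZFSet.pair_mem_prod.1 (hf.1 hv)).2, hv, h1⟩
  have hsub : ∀ v ∈ R, ∀ z ∈ v, ∃ k : ℕ, z = nat k := by
    intro v hv z hz
    obtain ⟨-, x, rfl⟩ := (c.real.1 v).1 hv
    exact mem_omega_iff.1 (CO.cut_subset x hz)
  have key : ∀ τ' ∈ Tg, (∀ i ∈ E, τ' i = i) → ∀ i v w, pair (b i) v ∈ f →
      pair (b (τ' i)) w ∈ f → v ⊆ w := by
    intro τ' h1 h2 i v w hv hw z hz
    obtain ⟨k, rfl⟩ := hsub v (ZFSet.pair_mem_prod.1 (hf.1 hv)).2 z hz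
    exact (hmem k _ w hw).1 (hE τ' h1 h2 k i ((hmem k i v hv).2 hz))
  refine ⟨E, fun τ' h1 h2 i v hv => ?_⟩
  obtain ⟨w, hwR, hw, -⟩ := fun_val hf (c.bX (τ' i))
  have h3 := key τ' h1 h2 i v w hv hw
  have h4 : w ⊆ v := by
    refine key τ'⁻¹ (Tg.inv_mem h1) (fun i hi => ?_) (τ' i) w v hw ?_
    · rw [Equiv.Perm.inv_eq_iff_eq, h2 i hi]
    · have h5 : τ'⁻¹ (τ' i) = i := Equiv.symm_apply_apply τ' i
      rwa [h5]
  have h5 : w = v := by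
    ext z
    exact ⟨fun hz => h4 hz, fun hz => h3 hz⟩
  rwa [h5] at hw

/-- Functions are constant near the end of each block. -/
theorem Ctx.far {f : ZFSet.{0}} (hfM : f ∈ M) (hf : ZFSet.IsFunc X R f) (n : ℕ) :
    ∃ v ∈ R, ∃ q : ℚ, ∀ r, q < r → pair (b (n, r)) v ∈ f := by
  obtain ⟨E, hE⟩ := c.supp_fun hfM hf
  obtain ⟨q, hq⟩ := exists_perm false E n
  obtain ⟨v, hvR, hv, -⟩ := fun_val hf (c.bX (n, q + 1))
  refine ⟨v, hvR, q, fun r hr => ?_⟩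
  obtain ⟨τ', h1, h2, h3⟩ := hq r (q + 1) (ltS_false.2 hr) (ltS_false.2 (lt_add_one q))
  have h4 := hE τ' h1 h2 _ _ hv
  rwa [h3] at h4

/-- Continuous functions are constant on almost all blocks. -/
theorem Ctx.const {f v : ZFSet.{0}} (hfM : f ∈ M) (hf : IsContMap X τ R δ f)
    (hv : pair A v ∈ f) : {n : ℕ | ¬ ∀ r, pair (b (n, r)) v ∈ f}.Finite := by
  obtain ⟨E, hE⟩ := c.supp_fun hfM hf.1
  refine (E.finite_toSet.image Prod.fst).subset fun n hn => ?_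
  by_contra hc
  refine hn fun r => ?_
  obtain ⟨q, hq⟩ := c.near hf hv n
  obtain ⟨τ', h1, h2, h3⟩ := exists_shift E n (fun i hi hin => hc ⟨i, hi, hin⟩) r (q - 1)
  have h4 := hE τ' h1 h2 _ _ (hq (q - 1) (sub_one_lt q))
  rwa [h3] at h4

end

end Pool.Agent.R602.HE
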